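import Pool.Agent.U349.EV.Kron

/-!
# Extreme values of absolutely convergent almost periodic series
-/

set_option autoImplicit false

namespace Pool.Agent.U349.EV

open Finset Filter Topology Complex

variable {ι : Type*}

/-- `∑ Re (A_i e^{i g_i t})` -/
noncomputable def F (A : ι → ℂ) (g : ι → ℝ) (t : ℝ) : ℝ := ∑' i, (A i * cexp (g i * t * I)).re

lemma norm_ex (x t : ℝ) : ‖cexp (x * t * I)‖ = 1 := by
  rw [show ((x:ℂ) * t * I) = ((x * t : ℝ) : ℂ) * I by push_cast; ring, Complex.norm_exp_ofReal_mul_I]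

lemma abs_term (A : ι → ℂ) (g : ι → ℝ) (t : ℝ) (i : ι) : |(A i * cexp (g i * t * I)).re| ≤ ‖A i‖ := by
  refine (Complex.abs_re_le_norm _).trans ?_
  rw [norm_mul, norm_ex, mul_one]

lemma summ_F {A : ι → ℂ} (hA : Summable fun i => ‖A i‖) (g : ι → ℝ) (t : ℝ) :
    Summable fun i => (A i * cexp (g i * t * I)).re :=
  Summable.of_norm_bounded hA fun i => by
    rw [Real.norm_eq_abs]
    exact abs_term A g t i

lemma F_le {A : ι → ℂ} (hA : Summable fun i => ‖A i‖) (g : ι → ℝ) (t : ℝ) : F A g t ≤ ∑' i, ‖A i‖ :=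
  (summ_F hA g t).tsum_le_tsum (fun i => (le_abs_self _).trans (abs_term A g t i)) hA

/-- the value is large if many terms are -/
lemma F_large {A : ι → ℂ} (hA : Summable fun i => ‖A i‖) (g : ι → ℝ) {ε : ℝ} (hε : 0 < ε) :
    ∃ S : Finset ι, ∃ η : ℝ, 0 < η ∧ ∀ t : ℝ, (∀ i ∈ S, (1 - η) * ‖A i‖ ≤ (A i * cexp (g i * t * I)).re) →
      ∑' i, ‖A i‖ - ε < F A g t := by
  classical
  set V := ∑' i, ‖A i‖ with hV
  have hV0 : 0 ≤ V := tsum_nonneg fun i => norm_nonneg _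
  obtain ⟨S, hS⟩ : ∃ S : Finset ι, V - ε / 4 < ∑ i ∈ S, ‖A i‖ := by
    have h1 := hA.hasSum.eventually (lt_mem_nhds (show V - ε / 4 < V by linarith))
    exact h1.exists
  refine ⟨S, ε / (4 * (V + 1)), by positivity, fun t ht => ?_⟩
  have h1 : (∑ i ∈ S, (A i * cexp (g i * t * I)).re) + ∑' i : {i // i ∉ S}, (A i * cexp (g i * t * I)).re = F A g t :=
    (summ_F hA g t).sum_add_tsum_subtype_compl S
  have h2 : (∑ i ∈ S, ‖A i‖) + ∑' i : {i // i ∉ S}, ‖A i‖ = V := hA.sum_add_tsum_subtype_compl S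
  have h3 : -(∑' i : {i // i ∉ S}, ‖A i‖) ≤ ∑' i : {i // i ∉ S}, (A i * cexp (g i * t * I)).re := by
    rw [← tsum_neg]
    refine Summable.tsum_le_tsum (fun i => ?_) (hA.subtype _).neg ((summ_F hA g t).subtype _)
    exact (neg_le_neg (abs_term A g t i)).trans (neg_abs_le _)
  have h4 : (1 - ε / (4 * (V + 1))) * ∑ i ∈ S, ‖A i‖ ≤ ∑ i ∈ S, (A i * cexp (g i * t * I)).re := by
    rw [mul_sum]
    exact sum_le_sum ht
  have h5 : ∑ i ∈ S, ‖A i‖ ≤ V := by
    have : 0 ≤ ∑' i : {i // i ∉ S}, ‖A i‖ := tsum_nonneg fun i => norm_nonneg _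
    linarith
  have h6 : ε / (4 * (V + 1)) * ∑ i ∈ S, ‖A i‖ ≤ ε / 4 := by
    calc ε / (4 * (V + 1)) * ∑ i ∈ S, ‖A i‖ ≤ ε / (4 * (V + 1)) * (V + 1) :=
          mul_le_mul_of_nonneg_left (by linarith) (by positivity)
      _ = ε / 4 := by field_simp
  nlinarith

lemma term_arg {z : ℂ} (x t : ℝ) : (z * cexp (x * t * I)).re = ‖z‖ * Real.cos (x * t + arg z) := by
  conv_lhs => rw [← norm_mul_exp_arg_mul_I z]
  rw [mul_assoc, ← Complex.exp_add, show (arg z : ℂ) * I + x * t * I = ((x * t + arg z : ℝ) : ℂ) * I by push_cast; ring,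
    Complex.re_ofReal_mul, Complex.exp_ofReal_mul_I_re]

/-- **linear independence: the extreme values are attained approximately** -/
theorem sup_of_free {A : ι → ℂ} (hA : Summable fun i => ‖A i‖) {g : ι → ℝ}
    (hg : ∀ S : Finset ι, ∀ n : ι → ℤ, ∑ i ∈ S, (n i : ℝ) * g i = 0 → ∀ i ∈ S, n i = 0)
    {ε : ℝ} (hε : 0 < ε) (T : ℝ) : ∃ t : ℝ, T ≤ t ∧ ∑' i, ‖A i‖ - ε < F A g t := by
  classical
  obtain ⟨S, η, hη, hS⟩ := F_large hA g hε
  let π : Fin S.card ≃ S := S.equivFin.symm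
  have hfree : ∀ l : Fin S.card → ℤ, l ≠ 0 → ∑ j, (l j : ℝ) * g (π j) ≠ 0 := by
    intro l hl h0
    apply hl
    funext j
    set n : ι → ℤ := fun i => if h : i ∈ S then l (π.symm ⟨i, h⟩) else 0 with hn
    have hnj : ∀ j, n (π j) = l j := by
      intro j
      simp only [hn]
      rw [dif_pos (π j).2]
      simp
    have h1 : ∑ i ∈ S, (n i : ℝ) * g i = 0 := by
      rw [← Finset.sum_coe_sort S (fun i => (n i : ℝ) * g i), ← π.sum_comp, ← h0]
      exact sum_congr rfl fun j _ => by rw [hnj]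
    have h2 := hg S n h1 (π j) (π j).2
    rw [hnj] at h2
    exact h2
  obtain ⟨t, ht, hc⟩ := kron (fun j => g (π j)) hfree (fun j => arg (A (π j))) hη T
  refine ⟨t, ht, hS t fun i hi => ?_⟩
  have h1 := hc (π.symm ⟨i, hi⟩)
  simp only [Equiv.apply_symm_apply] at h1
  rw [term_arg, mul_comm]
  exact mul_le_mul_of_nonneg_left h1.le (norm_nonneg _)

/-- simultaneous recurrence -/
lemma recur (S : Finset ι) (g : ι → ℝ) {η : ℝ} (hη : 0 < η) (T : ℝ) :
    ∃ t : ℝ, T ≤ t ∧ ∀ i ∈ S, 1 - η ≤ Real.cos (g i * t) := by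
  classical
  set T1 := max T 1 with hT1
  have hT0 : 0 < T1 := lt_of_lt_of_le one_pos (le_max_right _ _)
  set x : ℕ → (S → ℂ) := fun n i => cexp ((g i : ℝ) * ((n * T1 : ℝ) : ℂ) * I) with hx
  have hb : ∀ n, x n ∈ Metric.closedBall (0 : S → ℂ) 1 := by
    intro n
    rw [mem_closedBall_zero_iff, pi_norm_le_iff_of_nonneg zero_le_one]
    intro i
    exact (norm_ex _ _).le
  obtain ⟨a, -, φ, hφ, hlim⟩ := (isCompact_closedBall (0 : S → ℂ) 1).tendsto_subseq hb
  rw [Metric.tendsto_atTop] at hlim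
  obtain ⟨N, hN⟩ := hlim (η / 2) (by positivity)
  have h1 := hN N le_rfl
  have h2 := hN (N + 1) (by omega)
  have h3 : φ N < φ (N + 1) := hφ (by omega)
  refine ⟨((φ (N + 1) : ℝ) - φ N) * T1, ?_, fun i hi => ?_⟩
  · have h4 : (1:ℝ) ≤ (φ (N + 1) : ℝ) - φ N := by
      have : ((φ N + 1 : ℕ) : ℝ) ≤ φ (N + 1) := by exact_mod_cast h3
      push_cast at this
      linarith
    have h5 : T ≤ T1 := le_max_left _ _
    nlinarith
  · have h4 : dist (x (φ (N + 1))) (x (φ N)) < η := by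
      have := dist_triangle_right (x (φ (N + 1))) (x (φ N)) a
      simp only [Function.comp_apply] at h1 h2
      linarith
    have h5 : dist (x (φ (N + 1)) ⟨i, hi⟩) (x (φ N) ⟨i, hi⟩) < η :=
      lt_of_le_of_lt (dist_le_pi_dist _ _ _) h4
    set z : ℂ := cexp ((g i : ℝ) * ((((φ (N + 1) : ℝ) - φ N) * T1 : ℝ) : ℂ) * I) with hz
    have h6 : x (φ (N + 1)) ⟨i, hi⟩ = x (φ N) ⟨i, hi⟩ * z := by
      simp only [hx, hz]
      rw [← Complex.exp_add]
      congr 1
      push_cast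
      ring
    rw [dist_eq_norm, h6, show x (φ N) ⟨i, hi⟩ * z - x (φ N) ⟨i, hi⟩ = x (φ N) ⟨i, hi⟩ * (z - 1) by ring, norm_mul] at h5
    have h7 : ‖x (φ N) ⟨i, hi⟩‖ = 1 := norm_ex _ _
    rw [h7, one_mul] at h5
    have h8 : z.re = Real.cos (g i * (((φ (N + 1) : ℝ) - φ N) * T1)) := by
      rw [hz, ← Complex.exp_ofReal_mul_I_re]
      congr 2
      push_cast
      ring
    rw [← h8]
    have h9 : |(z - 1).re| ≤ ‖z - 1‖ := Complex.abs_re_le_norm _
    rw [Complex.sub_re, Complex.one_re] at h9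
    have := neg_le_abs (z.re - 1)
    linarith

/-- recurrence to the largest value for nonnegative coefficients -/
theorem sup_of_nonneg {a : ι → ℝ} (ha : ∀ i, 0 ≤ a i) (hs : Summable a) (g : ι → ℝ)
    {ε : ℝ} (hε : 0 < ε) (T : ℝ) : ∃ t : ℝ, T ≤ t ∧ ∑' i, a i - ε < F (fun i => (a i : ℂ)) g t := by
  have hn : ∀ i, ‖(a i : ℂ)‖ = a i := fun i => by rw [Complex.norm_real, Real.norm_of_nonneg (ha i)]
  have hA : Summable fun i => ‖(a i : ℂ)‖ := by simpa only [hn] using hs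
  obtain ⟨S, η, hη, hS⟩ := F_large hA g hε
  obtain ⟨t, ht, hc⟩ := recur S g hη T
  simp only [hn] at hS
  refine ⟨t, ht, hS t fun i hi => ?_⟩
  have h1 : ((a i : ℂ) * cexp (g i * t * I)).re = a i * Real.cos (g i * t) := by
    rw [Complex.re_ofReal_mul, show ((g i : ℂ) * t * I) = ((g i * t : ℝ) : ℂ) * I by push_cast; ring,
      Complex.exp_ofReal_mul_I_re]
  rw [h1, mul_comm]
  exact mul_le_mul_of_nonneg_left (hc i hi) (ha i)

/-- **a relation restricts the phases** -/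
theorem phase_of_sup {A : ι → ℂ} (hA : Summable fun i => ‖A i‖) {g : ι → ℝ} (S : Finset ι) (n : ι → ℤ)
    (hn : ∑ i ∈ S, (n i : ℝ) * g i = 0) (h0 : ∀ i ∈ S, A i ≠ 0)
    (hsup : ∀ ε : ℝ, 0 < ε → ∃ t : ℝ, ∑' i, ‖A i‖ - ε < F A g t) :
    ∏ i ∈ S, (A i / ‖A i‖) ^ n i = 1 := by
  classical
  choose t ht using fun k : ℕ => hsup (1 / ((k:ℝ) + 1)) (by positivity)
  set ζ : ℕ → ι → ℂ := fun k i => A i / ‖A i‖ * cexp (g i * t k * I) with hζ
  have h1 : ∀ i ∈ S, Tendsto (fun k => ζ k i) atTop (𝓝 1) := by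
    intro i hi
    have hpos : 0 < ‖A i‖ := norm_pos_iff.2 (h0 i hi)
    -- the single defect
    have e1 : ∀ k, ‖A i‖ - (A i * cexp (g i * t k * I)).re ≤ 1 / ((k:ℝ) + 1) := by
      intro k
      have h2 : ∀ j, 0 ≤ ‖A j‖ - (A j * cexp (g j * t k * I)).re := fun j =>
        sub_nonneg.2 ((le_abs_self _).trans (abs_term A g (t k) j))
      have h3 := (hA.sub (summ_F hA g (t k))).le_tsum i fun j _ => h2 j
      rw [hA.tsum_sub (summ_F hA g (t k))] at h3
      have h4 := ht k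
      unfold F at h4
      linarith
    have e2 : ∀ k, (ζ k i).re = (A i * cexp (g i * t k * I)).re / ‖A i‖ := by
      intro k
      simp only [hζ]
      rw [div_mul_eq_mul_div, Complex.div_ofReal_re]
    have e3 : ∀ k, ‖ζ k i‖ = 1 := by
      intro k
      simp only [hζ]
      rw [norm_mul, norm_ex, norm_div, Complex.norm_real, norm_norm, mul_one, div_self hpos.ne']
    have e4 : ∀ k, ‖ζ k i - 1‖ ^ 2 = 2 - 2 * (ζ k i).re := by
      intro k
      have h5 := e3 k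
      have h6 : (ζ k i).re ^ 2 + (ζ k i).im ^ 2 = 1 := by
        have := Complex.sq_norm (ζ k i)
        rw [h5, Complex.normSq_apply] at this
        nlinarith
      rw [Complex.sq_norm, Complex.normSq_apply]
      simp only [Complex.sub_re, Complex.sub_im, Complex.one_re, Complex.one_im, sub_zero]
      nlinarith
    have e5 : ∀ k, ‖ζ k i - 1‖ ^ 2 ≤ 2 / ‖A i‖ * (1 / ((k:ℝ) + 1)) := by
      intro k
      rw [e4, e2]
      have h7 : 2 - 2 * ((A i * cexp (g i * t k * I)).re / ‖A i‖) =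
          2 / ‖A i‖ * (‖A i‖ - (A i * cexp (g i * t k * I)).re) := by field_simp
      rw [h7]
      exact mul_le_mul_of_nonneg_left (e1 k) (by positivity)
    have e6 : Tendsto (fun k : ℕ => 2 / ‖A i‖ * (1 / ((k:ℝ) + 1))) atTop (𝓝 0) := by
      have := (tendsto_one_div_add_atTop_nhds_zero_nat (𝕜 := ℝ)).const_mul (2 / ‖A i‖)
      simpa using this
    have e7 : Tendsto (fun k => ‖ζ k i - 1‖ ^ 2) atTop (𝓝 0) :=
      squeeze_zero (fun k => by positivity) e5 e6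
    have e8 : Tendsto (fun k => ‖ζ k i - 1‖) atTop (𝓝 0) := by
      have := e7.sqrt
      simp only [Real.sqrt_zero] at this
      refine this.congr fun k => ?_
      rw [Real.sqrt_sq (norm_nonneg _)]
    have e9 := tendsto_zero_iff_norm_tendsto_zero.2 e8
    have := e9.add_const 1
    simpa using this
  have h2 : Tendsto (fun k => ∏ i ∈ S, ζ k i ^ n i) atTop (𝓝 1) := by
    have h3 : Tendsto (fun k => ∏ i ∈ S, ζ k i ^ n i) atTop (𝓝 (∏ i ∈ S, (1:ℂ) ^ n i)) :=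
      tendsto_finset_prod _ fun i hi => (h1 i hi).zpow₀ (n i) (Or.inl one_ne_zero)
    simpa using h3
  have h3 : ∀ k, ∏ i ∈ S, ζ k i ^ n i = ∏ i ∈ S, (A i / ‖A i‖) ^ n i := by
    intro k
    simp only [hζ, mul_zpow]
    rw [prod_mul_distrib]
    have h4 : ∏ i ∈ S, cexp (g i * t k * I) ^ n i = 1 := by
      have h5 : ∀ i ∈ S, cexp (g i * t k * I) ^ n i = cexp ((n i : ℂ) * (g i * t k * I)) := fun i _ => by
        rw [← Complex.exp_int_mul]
      rw [prod_congr rfl h5, ← Complex.exp_sum]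
      have h6 : ∑ i ∈ S, ((n i : ℂ) * (g i * t k * I)) = ((∑ i ∈ S, (n i : ℝ) * g i : ℝ) : ℂ) * (t k * I) := by
        push_cast
        rw [sum_mul]
        exact sum_congr rfl fun i _ => by ring
      rw [h6, hn]
      simp
    rw [h4, mul_one]
  simp only [h3] at h2
  exact tendsto_nhds_unique tendsto_const_nhds h2

end Pool.Agent.U349.EV
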