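import Pool.Agent.U349.EV.Main

/-!
# The criterion for the ordinates of one zeta function
-/

set_option autoImplicit false

namespace Pool.Agent.U349.EV

open Finset Filter Topology Complex MeasureTheory
open Pool.Agent.U544.LI

variable {f : ℂ → ℂ} {L : ℕ → ℝ} {δ : ℝ}

lemma ev_log {P : ℝ → Prop} : (∀ᶠ x in atTop, P (Real.log x)) ↔ ∀ᶠ u in atTop, P u := by
  constructor
  · intro h
    have := Real.tendsto_exp_atTop.eventually h
    filter_upwards [this] with u hu
    rwa [Real.log_exp] at hu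
  · intro h
    exact Real.tendsto_log_atTop.eventually h

lemma fr_log {P : ℝ → Prop} : (∃ᶠ x in atTop, P (Real.log x)) ↔ ∃ᶠ u in atTop, P u := by
  unfold Filter.Frequently
  rw [not_iff_not]
  exact ev_log (P := fun u => ¬ P u)

lemma limsup_log {W V' : ℝ → ℝ} {V : ℝ} (hW : ∀ᶠ x in atTop, W x = V' (Real.log x)) :
    LimsupIs W V ↔ LimsupIs V' V := by
  unfold LimsupIs
  constructor
  · rintro ⟨h1, h2⟩
    refine ⟨fun ε hε => ev_log.1 ?_, fun ε hε => fr_log.1 ?_⟩
    · filter_upwards [h1 ε hε, hW] with x hx hxW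
      rwa [← hxW]
    · refine ((h2 ε hε).and_eventually hW).mono fun x hx => ?_
      rw [← hx.2]
      exact hx.1
  · rintro ⟨h1, h2⟩
    refine ⟨fun ε hε => ?_, fun ε hε => ?_⟩
    · filter_upwards [ev_log.2 (h1 ε hε), hW] with x hx hxW
      rwa [hxW]
    · refine ((fr_log.2 (h2 ε hε)).and_eventually hW).mono fun x hx => ?_
      rw [hx.2]
      exact hx.1

/-- `4 m_γ / (1 + γ²)` -/
noncomputable def aa (Z : ℂ → ℂ) (g : Ord Z) : ℝ :=
  4 * analyticOrderNatAt Z (1 / 2 + g.1 * I) / (1 + g.1 ^ 2)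

/-- the total amplitude of `∑ w_j D(c_j x)` -/
noncomputable def Vz (Z : ℂ → ℂ) {m : ℕ} (w c : Fin m → ℝ) : ℝ :=
  2 * analyticOrderNatAt Z (1 / 2) * (∑ j, w j) + ∑' g : Ord Z, aa Z g * ‖∑ j, (w j : ℂ) * (c j : ℂ) ^ (g.1 * I)‖

lemma cpow_eq {c : ℝ} (hc : 0 < c) (g : ℝ) : (c : ℂ) ^ (g * I) = cexp (g * Real.log c * I) := by
  rw [Complex.cpow_def_of_ne_zero (by exact_mod_cast hc.ne'), ← Complex.ofReal_log hc.le]
  congr 1
  ring

/-- **The criterion for the set of ordinates.** -/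
theorem crit_ev (h : LD f L δ) {Z : ℂ → ℂ} (hZ : ∀ z : ℂ, z ≠ 1 / 2 → f z = (z - 1 / 2) * Z (1 / 2 + z))
    {D : ℝ → ℝ} (hD : ∀ x, 0 < x → D x = Dd L δ (Real.log x)) :
    Summable (aa Z) ∧
    (RHs Z ↔ ∃ C, ∀ᶠ x in atTop, D x ≤ C) ∧
    (RHs Z ↔ LimsupIs D (2 * analyticOrderNatAt Z (1 / 2) + ∑' g, aa Z g)) ∧
    (RHs Z → ∀ (m : ℕ) (w c : Fin m → ℝ), (∀ j, 0 < c j) → ∀ ε : ℝ, 0 < ε →
      ∀ᶠ x in atTop, ∑ j, w j * D (c j * x) < Vz Z w c + ε) ∧
    (RHs Z ∧ LinearIndependent ℚ (fun g : Ord Z => g.1) ↔ ∀ (m : ℕ) (w c : Fin m → ℝ), (∀ j, 0 < c j) →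
      LimsupIs (fun x => ∑ j, w j * D (c j * x)) (Vz Z w c)) ∧
    ∃ E : Set ℝ, E.Countable ∧ ∀ c : ℝ, 1 < c → c ∉ E →
      (RHs Z ∧ LinearIndependent ℚ (fun g : Ord Z => g.1) ↔
        LimsupIs (fun x => |D x + 2 * D (c * x)|) (Vz Z ![1, 2] ![1, c])) := by
  classical
  have hfz : ∀ z : ℂ, z ≠ 1 / 2 → (f z = 0 ↔ Z (1 / 2 + z) = 0) := by
    intro z hz
    rw [hZ z hz, mul_eq_zero]
    constructor
    · rintro (h1 | h1)
      · exact absurd (sub_eq_zero.1 h1) hz
      · exact h1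
    · intro h1
      exact Or.inr h1
  have hRH : RHs Z ↔ RHf f := by
    constructor
    · intro h1 w hw hw2
      rw [abs_lt] at hw2
      have hwh : w ≠ 1 / 2 := by
        rintro rfl
        norm_num at hw2
      have := h1 (1 / 2 + w) (by simp; linarith) (by simp; linarith) ((hfz w hwh).1 hw)
      simp at this
      linarith
    · intro h1 ρ h2 h3 h4
      have hwh : ρ - 1 / 2 ≠ 1 / 2 := by
        intro h5
        have : ρ = 1 := by linear_combination h5
        rw [this] at h3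
        simp at h3
      have := h1 (ρ - 1 / 2) ((hfz _ hwh).2 (by rw [add_sub_cancel]; exact h4)) (by
        rw [abs_lt]
        constructor <;> simp <;> linarith)
      simp at this
      linarith
  have hmu0 : mu f 0 = analyticOrderNatAt Z (1 / 2) := by
    rw [ord_eq h hZ (by norm_num), add_zero]
  let π : Ord Z ≃ Gs f :=
    { toFun := fun g => ⟨g.1, g.2.1, (hfz _ (ne_half _)).2 g.2.2⟩
      invFun := fun g => ⟨g.1, g.2.1, (hfz _ (ne_half _)).1 g.2.2⟩
      left_inv := fun g => rfl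
      right_inv := fun g => rfl }
  have hπ : ∀ g, (π g).1 = g.1 := fun g => rfl
  have haa : ∀ g, 2 * wt f (π g) = aa Z g := by
    intro g
    have e : wt f (π g) = (mu f ((g.1:ℂ) * I) : ℝ) * (2 / (1 + g.1 ^ 2)) := rfl
    rw [e, ord_eq h hZ (ne_half _)]
    unfold aa
    ring
  have hsum : Summable (aa Z) := by
    have := ((wt_summ h).mul_left 2).comp_injective π.injective
    refine this.congr fun g => ?_
    exact haa g
  have hLI : LinearIndependent ℚ (fun g : Ord Z => g.1) ↔ LinearIndependent ℚ (fun g : Gs f => g.1) :=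
    linearIndependent_equiv (R := ℚ) π (f := fun g : Gs f => g.1)
  -- the amplitudes
  have hV : ∀ (m : ℕ) (w c : Fin m → ℝ), (∀ j, 0 < c j) →
      Vz Z w c = 2 * (mu f 0 : ℝ) * (∑ j, w j) + ∑' g, ‖Am f w (fun j => Real.log (c j)) g‖ := by
    intro m w c hc
    unfold Vz
    rw [hmu0, ← π.tsum_eq (fun g => ‖Am f w (fun j => Real.log (c j)) g‖)]
    congr 1
    refine tsum_congr fun g => ?_
    unfold Am
    rw [norm_mul, Complex.norm_real, Real.norm_of_nonneg (by have := wt_pos h (π g); positivity), haa]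
    congr 2
    exact sum_congr rfl fun j _ => by rw [cpow_eq (hc j), hπ]
  have hWl : ∀ (m : ℕ) (w c : Fin m → ℝ), (∀ j, 0 < c j) → ∀ᶠ x in atTop,
      ∑ j, w j * D (c j * x) = ∑ j, w j * Dd L δ (Real.log x + Real.log (c j)) := by
    intro m w c hc
    filter_upwards [eventually_gt_atTop 0] with x hx
    refine sum_congr rfl fun j _ => ?_
    rw [hD _ (mul_pos (hc j) hx), Real.log_mul (hc j).ne' hx.ne', add_comm]
  have hDl : ∀ᶠ x in atTop, D x = Dd L δ (Real.log x) := by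
    filter_upwards [eventually_gt_atTop 0] with x hx
    exact hD x hx
  have hts : ∑' g, aa Z g = ∑' g, 2 * wt f g := by
    rw [← π.tsum_eq (fun g => 2 * wt f g)]
    exact tsum_congr fun g => (haa g).symm
  have hb : (∃ C, ∀ᶠ x in atTop, D x ≤ C) → RHf f := by
    rintro ⟨C, hC⟩
    refine rh_of_le h (C := C) (ev_log.1 ?_)
    filter_upwards [hC, hDl] with x hx hx'
    rwa [← hx']
  have hlimD : RHf f → LimsupIs D (2 * analyticOrderNatAt Z (1 / 2) + ∑' g, aa Z g) := by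
    intro hR
    rw [limsup_log hDl, ← hmu0, hts]
    exact ⟨fun ε hε => upper_D h hR hε, fun ε hε => lower_D h hR hε⟩
  have hup : RHf f → ∀ (m : ℕ) (w c : Fin m → ℝ), (∀ j, 0 < c j) → ∀ ε : ℝ, 0 < ε →
      ∀ᶠ x in atTop, ∑ j, w j * D (c j * x) < Vz Z w c + ε := by
    intro hR m w c hc ε hε
    have h1 := upper h hR w (fun j => Real.log (c j)) hε
    rw [← hV m w c hc] at h1
    filter_upwards [ev_log.2 h1, hWl m w c hc] with x hx hx'
    rwa [hx']
  obtain ⟨E, hE, hcrit⟩ := crit_abs h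
  have hcr : ∀ c : ℝ, 1 < c → c ∉ Real.exp '' E → (RHf f ∧ LinearIndependent ℚ (fun g : Ord Z => g.1) ↔
        LimsupIs (fun x => |D x + 2 * D (c * x)|) (Vz Z ![1, 2] ![1, c])) := by
    intro c hc hcE
    have hc0 : 0 < c := by linarith
    have h1 := hcrit (Real.log c) (Real.log_pos hc) (fun h2 => hcE ⟨_, h2, Real.exp_log hc0⟩)
    have hcc : ∀ j, 0 < (![1, c] : Fin 2 → ℝ) j := by
      intro j
      fin_cases j
      · simp
      · simpa using hc0
    have h2 : (fun j => Real.log ((![1, c] : Fin 2 → ℝ) j)) = ![0, Real.log c] := by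
      funext j
      fin_cases j <;> simp
    have h3 : VV f (Real.log c) = Vz Z ![1, 2] ![1, c] := by
      rw [hV 2 _ _ hcc, h2]
      unfold VV
      rw [tsum_congr fun g => norm_Am_two h (Real.log c) g, Fin.sum_univ_two]
      simp only [Matrix.cons_val_zero, Matrix.cons_val_one]
      ring
    have h4 : ∀ᶠ x in atTop, |D x + 2 * D (c * x)| =
        (fun u => |Dd L δ u + 2 * Dd L δ (u + Real.log c)|) (Real.log x) := by
      filter_upwards [eventually_gt_atTop 0] with x hx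
      rw [hD x hx, hD _ (mul_pos hc0 hx), Real.log_mul hc0.ne' hx.ne', add_comm (Real.log c)]
    rw [hLI, h1, h3, ← limsup_log h4]
  refine ⟨hsum, ?_, ?_, ?_, ?_, Real.exp '' E, hE.image _, ?_⟩
  · rw [hRH]
    refine ⟨fun hR => ?_, hb⟩
    exact ⟨_, ((hlimD hR).1 1 one_pos).mono fun x hx => hx.le⟩
  · rw [hRH]
    exact ⟨hlimD, fun h1 => hb ⟨_, (h1.1 1 one_pos).mono fun x hx => hx.le⟩⟩
  · rw [hRH]
    exact hup
  · rw [hRH]
    constructor
    · rintro ⟨hR, hI⟩ m w c hc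
      refine ⟨hup hR m w c hc, fun ε hε => ?_⟩
      have h1 := lower_of_free h hR (hLI.1 hI) w (fun j => Real.log (c j)) hε
      rw [← hV m w c hc] at h1
      refine ((fr_log.2 h1).and_eventually (hWl m w c hc)).mono fun x hx => ?_
      show Vz Z w c - ε < ∑ j, w j * D (c j * x)
      rw [hx.2]
      exact hx.1
    · intro hall
      -- a good dilation
      obtain ⟨c, hc1, hcE⟩ := ((hE.image Real.exp).dense_compl ℝ).inter_open_nonempty (Set.Ioi 1) isOpen_Ioi ⟨2, by simp⟩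
      have hc0 : (0:ℝ) < c := lt_trans one_pos hc1
      have hcc : ∀ j, 0 < (![1, c] : Fin 2 → ℝ) j := by
        intro j
        fin_cases j
        · simp
        · simpa using hc0
      rw [hcr c hc1 hcE]
      have h1 := hall 2 ![1, 2] ![1, c] hcc
      have h2 := hall 2 (fun j => -(![1, 2] : Fin 2 → ℝ) j) ![1, c] hcc
      have h3 : Vz Z (fun j => -(![1, 2] : Fin 2 → ℝ) j) ![1, c] ≤ Vz Z ![1, 2] ![1, c] := by
        unfold Vz
        have e1 : ∀ g : Ord Z, ‖∑ j, (((fun j => -(![1, 2] : Fin 2 → ℝ) j) j : ℝ) : ℂ) * (((![1, c] : Fin 2 → ℝ) j : ℝ) : ℂ) ^ (g.1 * I)‖ =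
            ‖∑ j, (((![1, 2] : Fin 2 → ℝ) j : ℝ) : ℂ) * (((![1, c] : Fin 2 → ℝ) j : ℝ) : ℂ) ^ (g.1 * I)‖ := by
          intro g
          rw [← norm_neg, ← sum_neg_distrib]
          congr 1
          exact sum_congr rfl fun j _ => by push_cast; ring
        rw [tsum_congr fun g => by rw [e1 g], sum_neg_distrib, Fin.sum_univ_two]
        simp only [Matrix.cons_val_zero, Matrix.cons_val_one]
        have : (0:ℝ) ≤ analyticOrderNatAt Z (1 / 2) := Nat.cast_nonneg _
        linarith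
      simp only [Fin.sum_univ_two, Matrix.cons_val_zero, Matrix.cons_val_one, one_mul] at h1 h2
      refine ⟨fun ε hε => ?_, fun ε hε => ?_⟩
      · filter_upwards [h1.1 ε hε, h2.1 ε hε] with x hx1 hx2
        rw [abs_lt]
        constructor <;> linarith
      · exact (h1.2 ε hε).mono fun x hx => hx.trans_le (le_abs_self _)
  · rw [hRH]
    exact hcr

end Pool.Agent.U349.EV
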