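import Pool.Agent.U349.EV.Fam
import Pool.Agent.U544.LI.DedD

/-!
# Extreme values and Artin L-functions
-/

set_option autoImplicit false

namespace Pool.Agent.U349.EV

open Filter Topology Complex NumberField
open Pool.Agent.U544.LI

/-- `limsup W = v` in two halves -/
lemma limsupIs_iff {W : ℝ → ℝ} {v : ℝ} : LimsupIs W v ↔ LimsupLe W v ∧ LimsupGe W v := Iff.rfl

/-- the criterion for the zeta function of a number field -/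
theorem ded_ev (E : Type) [Field E] [NumberField E] {Z : ℂ → ℂ} (hZ : IsZ E Z) {D : ℝ → ℝ}
    (hD : ∀ x, 0 < x → D x = Dd (LE E) 1 (Real.log x)) :
    Summable (aa Z) ∧
    (RHs Z ↔ ∃ C, ∀ᶠ x in atTop, D x ≤ C) ∧
    (RHs Z ↔ LimsupIs D (2 * analyticOrderNatAt Z (1 / 2) + ∑' g, aa Z g)) ∧
    (RHs Z → ∀ (m : ℕ) (w c : Fin m → ℝ), (∀ j, 0 < c j) → ∀ ε : ℝ, 0 < ε →
      ∀ᶠ x in atTop, ∑ j, w j * D (c j * x) < Vz Z w c + ε) ∧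
    (RHs Z ∧ LinearIndependent ℚ (fun g : Ord Z => g.1) ↔ ∀ (m : ℕ) (w c : Fin m → ℝ), (∀ j, 0 < c j) →
      LimsupIs (fun x => ∑ j, w j * D (c j * x)) (Vz Z w c)) ∧
    ∃ E : Set ℝ, E.Countable ∧ ∀ c : ℝ, 1 < c → c ∉ E →
      (RHs Z ∧ LinearIndependent ℚ (fun g : Ord Z => g.1) ↔
        LimsupIs (fun x => |D x + 2 * D (c * x)|) (Vz Z ![1, 2] ![1, c])) := by
  have h := ld_ded E
  have hf : ∀ z : ℂ, z ≠ 1 / 2 → (fun z => ZD E (1 / 2 + z)) z = (z - 1 / 2) * Z (1 / 2 + z) := by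
    intro z hz
    have h1 : (1 / 2 + z : ℂ) ≠ 1 := fun h => hz (by linear_combination h)
    show ZD E (1 / 2 + z) = _
    rw [ZD_eq hZ h1]
    ring
  exact crit_ev h hf hD

section art

variable (F : Type) [Field F] [NumberField F] [IsGalois ℚ F]

/-- the criterion for the Artin L-functions -/
theorem art_ev {L : ((F ≃ₐ[ℚ] F) → ℂ) → ℂ → ℂ}
    (hZ : ∀ χ ∈ Pool.Agent.H541R3.ART.Irr (F ≃ₐ[ℚ] F), IsArt F χ (L χ)) {D : ℝ → ℝ}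
    (hD : ∀ x, 0 < x → D x = Dd (LE F) 1 (Real.log x)) {M : ℕ}
    (hM : M = ∑ χ ∈ Pool.Agent.H541R3.ART.irrF (F ≃ₐ[ℚ] F), dg χ * analyticOrderNatAt (L χ) (1 / 2)) :
    Summable (fun p : GamP (fun χ => χ ∈ Pool.Agent.H541R3.ART.Irr (F ≃ₐ[ℚ] F)) L =>
      4 * (dg p.1.1.1 : ℝ) / (1 + p.1.1.2 ^ 2)) ∧
    Summable (rr (fun χ => χ ∈ Pool.Agent.H541R3.ART.Irr (F ≃ₐ[ℚ] F)) L dg) ∧
    ((∀ χ, χ ∈ Pool.Agent.H541R3.ART.Irr (F ≃ₐ[ℚ] F) → RHs (L χ)) ↔ ∃ C, ∀ᶠ x in atTop, D x ≤ C) ∧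
    ((∀ χ, χ ∈ Pool.Agent.H541R3.ART.Irr (F ≃ₐ[ℚ] F) → RHs (L χ)) ↔
      LimsupIs D (2 * M + ∑' p : GamP (fun χ => χ ∈ Pool.Agent.H541R3.ART.Irr (F ≃ₐ[ℚ] F)) L,
        4 * (dg p.1.1.1 : ℝ) / (1 + p.1.1.2 ^ 2))) ∧
    (∀ e : ℝ, e ≤ M → ((∀ χ, χ ∈ Pool.Agent.H541R3.ART.Irr (F ≃ₐ[ℚ] F) → RHs (L χ)) ∧ (M : ℝ) = e ∧
        Function.Injective (fun p : GamP (fun χ => χ ∈ Pool.Agent.H541R3.ART.Irr (F ≃ₐ[ℚ] F)) L => p.1.1.2) ↔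
      LimsupLe D (2 * e + ∑' g, rr (fun χ => χ ∈ Pool.Agent.H541R3.ART.Irr (F ≃ₐ[ℚ] F)) L dg g))) ∧
    ∃ E : Set ℝ, E.Countable ∧ ∀ c : ℝ, 1 < c → c ∉ E → ∀ e : ℝ, e ≤ M →
      ((∀ χ, χ ∈ Pool.Agent.H541R3.ART.Irr (F ≃ₐ[ℚ] F) → RHs (L χ)) ∧ (M : ℝ) = e ∧
        LinearIndependent ℚ (fun p : GamP (fun χ => χ ∈ Pool.Agent.H541R3.ART.Irr (F ≃ₐ[ℚ] F)) L => p.1.1.2) ↔
        LimsupLe D (2 * e + ∑' g, rr (fun χ => χ ∈ Pool.Agent.H541R3.ART.Irr (F ≃ₐ[ℚ] F)) L dg g) ∧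
        LimsupGe (fun x => |D x + 2 * D (c * x)|)
          (6 * e + ∑' g : OrdP (fun χ => χ ∈ Pool.Agent.H541R3.ART.Irr (F ≃ₐ[ℚ] F)) L,
            rr (fun χ => χ ∈ Pool.Agent.H541R3.ART.Irr (F ≃ₐ[ℚ] F)) L dg g * ‖1 + 2 * (c : ℂ) ^ (g.1 * I)‖)) := by
  have hf : ∀ z : ℂ, z ≠ 1 / 2 → (fun z => ZD F (1 / 2 + z)) z =
      (z - 1 / 2) * ∏ χ ∈ Pool.Agent.H541R3.ART.irrF (F ≃ₐ[ℚ] F), L χ (1 / 2 + z) ^ dg χ := by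
    intro z hz
    have h1 : (1 / 2 + z : ℂ) ≠ 1 := fun h => hz (by linear_combination h)
    show ZD F (1 / 2 + z) = _
    rw [art_fact hZ h1]
    ring
  exact crit_fam_ev (ld_ded F)
    (P := fun χ => χ ∈ Pool.Agent.H541R3.ART.Irr (F ≃ₐ[ℚ] F)) (S := Pool.Agent.H541R3.ART.irrF (F ≃ₐ[ℚ] F))
    (Z := L) (d := dg) (fun χ => Pool.Agent.H541R3.ART.mem_irrF.symm)
    (fun χ hχ => (dg_spec (Pool.Agent.H541R3.ART.mem_irrF.1 hχ)).2)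
    (fun χ hχ s hs => (hZ χ (Pool.Agent.H541R3.ART.mem_irrF.1 hχ)).1 s hs)
    (fun χ hχ => art_two (hZ χ (Pool.Agent.H541R3.ART.mem_irrF.1 hχ))) hf hD hM

end art

end Pool.Agent.U349.EV
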