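import Pool.Agent.U349.EV.Red

/-!
# Extreme values for the multiset of the ordinates of a family of L-functions
-/

set_option autoImplicit false

namespace Pool.Agent.U349.EV

open Finset Filter Topology Complex MeasureTheory
open Pool.Agent.U544.LI

variable {f : ℂ → ℂ} {L : ℕ → ℝ} {δ : ℝ}
variable {X : Type} {S : Finset X} {P : X → Prop} {Z : X → ℂ → ℂ} {d : X → ℕ}

/-- the different ordinates -/
def OrdP (P : X → Prop) (Z : X → ℂ → ℂ) : Type := {g : ℝ // 0 < g ∧ ∃ χ, P χ ∧ Z χ (1 / 2 + g * I) = 0}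

/-- the least degree at an ordinate -/
noncomputable def dmin (P : X → Prop) (Z : X → ℂ → ℂ) (d : X → ℕ) (g : ℝ) : ℕ :=
  sInf {n | ∃ χ, P χ ∧ Z χ (1 / 2 + g * I) = 0 ∧ d χ = n}

/-- `4 d / (1 + γ²)` -/
noncomputable def rr (P : X → Prop) (Z : X → ℂ → ℂ) (d : X → ℕ) (g : OrdP P Z) : ℝ := 4 * dmin P Z d g.1 / (1 + g.1 ^ 2)

lemma limsupLe_log {W V' : ℝ → ℝ} {V : ℝ} (hW : ∀ᶠ x in atTop, W x = V' (Real.log x)) :
    LimsupLe W V ↔ LimsupLe V' V := by
  unfold LimsupLe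
  constructor
  · intro h1 ε hε
    refine ev_log.1 ?_
    filter_upwards [h1 ε hε, hW] with x hx hxW
    rwa [← hxW]
  · intro h1 ε hε
    filter_upwards [ev_log.2 (h1 ε hε), hW] with x hx hxW
    rwa [hxW]

lemma limsupGe_log {W V' : ℝ → ℝ} {V : ℝ} (hW : ∀ᶠ x in atTop, W x = V' (Real.log x)) :
    LimsupGe W V ↔ LimsupGe V' V := by
  unfold LimsupGe
  constructor
  · intro h2 ε hε
    refine fr_log.1 ?_
    refine ((h2 ε hε).and_eventually hW).mono fun x hx => ?_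
    rw [← hx.2]
    exact hx.1
  · intro h2 ε hε
    refine ((fr_log.2 (h2 ε hε)).and_eventually hW).mono fun x hx => ?_
    rw [hx.2]
    exact hx.1

/-- **The criterion for a family of L-functions.** -/
theorem crit_fam_ev (h : LD f L δ) (hP : ∀ χ, P χ ↔ χ ∈ S) (hd : ∀ χ ∈ S, 0 < d χ)
    (hZ : ∀ χ ∈ S, ∀ s : ℂ, s ≠ 1 → AnalyticAt ℂ (Z χ) s) (h2 : ∀ χ ∈ S, Z χ 2 ≠ 0)
    (hf : ∀ z : ℂ, z ≠ 1 / 2 → f z = (z - 1 / 2) * ∏ χ ∈ S, Z χ (1 / 2 + z) ^ d χ)
    {D : ℝ → ℝ} (hD : ∀ x, 0 < x → D x = Dd L δ (Real.log x)) {M : ℕ}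
    (hM : M = ∑ χ ∈ S, d χ * analyticOrderNatAt (Z χ) (1 / 2)) :
    Summable (fun p : GamP P Z => 4 * (d p.1.1.1 : ℝ) / (1 + p.1.1.2 ^ 2)) ∧
    Summable (rr P Z d) ∧
    ((∀ χ, P χ → RHs (Z χ)) ↔ ∃ C, ∀ᶠ x in atTop, D x ≤ C) ∧
    ((∀ χ, P χ → RHs (Z χ)) ↔ LimsupIs D (2 * M + ∑' p : GamP P Z, 4 * (d p.1.1.1 : ℝ) / (1 + p.1.1.2 ^ 2))) ∧
    (∀ e : ℝ, e ≤ M → ((∀ χ, P χ → RHs (Z χ)) ∧ (M : ℝ) = e ∧ Function.Injective (fun p : GamP P Z => p.1.1.2) ↔
      LimsupLe D (2 * e + ∑' g, rr P Z d g))) ∧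
    ∃ E : Set ℝ, E.Countable ∧ ∀ c : ℝ, 1 < c → c ∉ E → ∀ e : ℝ, e ≤ M →
      ((∀ χ, P χ → RHs (Z χ)) ∧ (M : ℝ) = e ∧ LinearIndependent ℚ (fun p : GamP P Z => p.1.1.2) ↔
        LimsupLe D (2 * e + ∑' g, rr P Z d g) ∧
        LimsupGe (fun x => |D x + 2 * D (c * x)|)
          (6 * e + ∑' g : OrdP P Z, rr P Z d g * ‖1 + 2 * (c : ℂ) ^ (g.1 * I)‖)) := by
  classical
  have hfz : ∀ z : ℂ, z ≠ 1 / 2 → (f z = 0 ↔ ∃ χ ∈ S, Z χ (1 / 2 + z) = 0) := by
    intro z hz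
    rw [hf z hz, mul_eq_zero, Finset.prod_eq_zero_iff]
    constructor
    · rintro (h1 | ⟨χ, hχ, h1⟩)
      · exact absurd (sub_eq_zero.1 h1) hz
      · exact ⟨χ, hχ, (pow_eq_zero_iff (hd χ hχ).ne').1 h1⟩
    · rintro ⟨χ, hχ, h1⟩
      exact Or.inr ⟨χ, hχ, by rw [h1, zero_pow (hd χ hχ).ne']⟩
  have hRH : (∀ χ, P χ → RHs (Z χ)) ↔ RHf f := by
    constructor
    · intro h1 w hw hw2
      rw [abs_lt] at hw2
      have hwh : w ≠ 1 / 2 := by
        rintro rfl
        norm_num at hw2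
      obtain ⟨χ, hχ, h3⟩ := (hfz w hwh).1 hw
      have := h1 χ ((hP χ).2 hχ) (1 / 2 + w) (by simp; linarith) (by simp; linarith) h3
      simp at this
      linarith
    · intro h1 χ hχ ρ h3 h4 h5
      have hwh : ρ - 1 / 2 ≠ 1 / 2 := by
        intro h5
        have : ρ = 1 := by linear_combination h5
        rw [this] at h4
        simp at h4
      have := h1 (ρ - 1 / 2) ((hfz _ hwh).2 ⟨χ, (hP χ).1 hχ, by rw [add_sub_cancel]; exact h5⟩) (by
        rw [abs_lt]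
        constructor <;> simp <;> linarith)
      simp at this
      linarith
  have hmu : ∀ z : ℂ, z ≠ 1 / 2 → mu f z = ∑ χ ∈ S, d χ * analyticOrderNatAt (Z χ) (1 / 2 + z) := by
    intro z hz
    refine mu_fam hZ h2 hz ?_
    filter_upwards [isOpen_ne.mem_nhds hz] with y hy using hf y hy
  have hmu0 : mu f 0 = M := by
    rw [hmu 0 (by norm_num), add_zero, hM]
  have hne1 : ∀ g : ℝ, (1 / 2 + (g:ℂ) * I) ≠ 1 := by
    intro g h1
    apply ne_half g
    linear_combination h1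
  let π : GamP P Z → Gs f := fun p => ⟨p.1.1.2, p.2.2.1, by
    rw [hfz _ (ne_half _)]
    exact ⟨p.1.1.1, (hP _).1 p.2.1, (Z_ord_pos hZ h2 ((hP _).1 p.2.1) (hne1 _)).1 (by have := p.2.2.2; omega)⟩⟩
  let b : GamP P Z → ℝ := fun p => d p.1.1.1 * (2 / (1 + p.1.1.2 ^ 2))
  have hb : ∀ p, 0 < b p := fun p => by
    have : (0:ℝ) < d p.1.1.1 := by exact_mod_cast hd _ ((hP _).1 p.2.1)
    positivity
  have harg : ∀ p : GamP P Z, 2 * b p = 4 * (d p.1.1.1 : ℝ) / (1 + p.1.1.2 ^ 2) := by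
    intro p
    simp only [b]
    ring
  -- the fibres
  have hfib : ∀ g : Gs f, HasSum (fun i : {i // π i = g} => b i) (wt f g) := by
    intro g
    set o : X → ℕ := fun χ => analyticOrderNatAt (Z χ) (1 / 2 + (g.1:ℂ) * I) with ho
    let ee : (Σ χ : {χ // χ ∈ S}, Fin (o χ.1)) ≃ {i : GamP P Z // π i = g} :=
      { toFun := fun x => ⟨⟨((x.1.1, g.1), x.2.1), (hP _).2 x.1.2, g.2.1, x.2.2⟩, by apply Subtype.ext; rfl⟩
        invFun := fun p => ⟨⟨p.1.1.1.1, (hP _).1 p.1.2.1⟩, ⟨p.1.1.2, by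
          have h1 : p.1.1.1.2 = g.1 := congrArg Subtype.val p.2
          have h3 := p.1.2.2.2
          rw [h1] at h3
          exact h3⟩⟩
        left_inv := fun x => rfl
        right_inv := fun p => by
          apply Subtype.ext
          apply Subtype.ext
          have h1 : p.1.1.1.2 = g.1 := congrArg Subtype.val p.2
          exact Prod.ext (Prod.ext rfl h1.symm) rfl }
    rw [← ee.hasSum_iff]
    have h1 := hasSum_fintype (fun x : (Σ χ : {χ // χ ∈ S}, Fin (o χ.1)) => ((fun i : {i // π i = g} => b i) ∘ ee) x)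
    have h3 : ∑ x : (Σ χ : {χ // χ ∈ S}, Fin (o χ.1)), ((fun i : {i // π i = g} => b i) ∘ ee) x = wt f g := by
      have e1 : ∀ x : (Σ χ : {χ // χ ∈ S}, Fin (o χ.1)), ((fun i : {i // π i = g} => b i) ∘ ee) x =
          d x.1.1 * (2 / (1 + g.1 ^ 2)) := fun x => rfl
      rw [Finset.sum_congr rfl fun x _ => e1 x]
      have e3 : ∑ x : (Σ χ : {χ // χ ∈ S}, Fin (o χ.1)), (d x.1.1 : ℝ) * (2 / (1 + g.1 ^ 2)) =
          ∑ χ : {χ // χ ∈ S}, (o χ.1 : ℝ) * (d χ.1 * (2 / (1 + g.1 ^ 2))) := by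
        rw [Fintype.sum_sigma (fun x : (Σ χ : {χ // χ ∈ S}, Fin (o χ.1)) => (d x.1.1 : ℝ) * (2 / (1 + g.1 ^ 2)))]
        refine Finset.sum_congr rfl fun χ _ => ?_
        simp
      rw [e3]
      have e2 : wt f g = (mu f ((g.1:ℂ) * I) : ℝ) * (2 / (1 + g.1 ^ 2)) := rfl
      rw [e2, hmu _ (ne_half _)]
      push_cast
      rw [Finset.sum_mul, ← Finset.sum_coe_sort S]
      refine Finset.sum_congr rfl fun χ _ => ?_
      ring
    rw [h3] at h1
    exact h1
  have hsurj : Function.Surjective π := by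
    intro g
    by_contra hcon
    push Not at hcon
    have he : IsEmpty {i // π i = g} := ⟨fun i => hcon i.1 i.2⟩
    have h1 := (hfib g).unique hasSum_empty
    exact (wt_pos h g).ne' h1
  have hw := wt_summ h
  have hbs : Summable b := by
    have key : Summable (fun x : (Σ g : Gs f, {i // π i = g}) => b x.2.1) := by
      rw [summable_sigma_of_nonneg (fun i => (hb _).le)]
      exact ⟨fun g => (hfib g).summable, hw.congr fun g => ((hfib g).tsum_eq).symm⟩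
    exact (Equiv.sigmaFiberEquiv π).summable_iff.1 key
  have hbt : ∑' p, b p = ∑' g, wt f g := by
    have key : Summable (fun x : (Σ g : Gs f, {i // π i = g}) => b x.2.1) :=
      (Equiv.sigmaFiberEquiv π).summable_iff.2 hbs
    have e0 : ∑' x : (Σ g : Gs f, {i // π i = g}), b x.2.1 = ∑' i, b i :=
      (Equiv.sigmaFiberEquiv π).tsum_eq b
    rw [← e0, Summable.tsum_sigma key]
    exact tsum_congr fun g => (hfib g).tsum_eq
  -- the different ordinates
  let κ : OrdP P Z ≃ Gs f :=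
    { toFun := fun g => ⟨g.1, g.2.1, (hfz _ (ne_half _)).2 (by
        obtain ⟨χ, h1, h3⟩ := g.2.2
        exact ⟨χ, (hP χ).1 h1, h3⟩)⟩
      invFun := fun g => ⟨g.1, g.2.1, by
        obtain ⟨χ, h1, h3⟩ := (hfz _ (ne_half _)).1 g.2.2
        exact ⟨χ, (hP χ).2 h1, h3⟩⟩
      left_inv := fun g => rfl
      right_inv := fun g => rfl }
  have hκ : ∀ g, (κ g).1 = g.1 := fun g => rfl
  set r : Gs f → ℝ := fun g => dmin P Z d g.1 * (2 / (1 + g.1 ^ 2)) with hrdef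
  have hrr : ∀ g, 2 * r (κ g) = rr P Z d g := by
    intro g
    simp only [hrdef, hκ]
    unfold rr
    ring
  have hr0 : ∀ g, 0 ≤ r g := fun g => by positivity
  have hwt : ∀ g : Gs f, wt f g =
      ((∑ χ ∈ S, d χ * analyticOrderNatAt (Z χ) (1 / 2 + (g.1:ℂ) * I) : ℕ) : ℝ) * (2 / (1 + g.1 ^ 2)) := by
    intro g
    have e2 : wt f g = (mu f ((g.1:ℂ) * I) : ℝ) * (2 / (1 + g.1 ^ 2)) := rfl
    rw [e2, hmu _ (ne_half _)]
  have hop : ∀ χ ∈ S, ∀ g : ℝ, 0 < analyticOrderNatAt (Z χ) (1 / 2 + (g:ℂ) * I) ↔ Z χ (1 / 2 + (g:ℂ) * I) = 0 :=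
    fun χ hχ g => Z_ord_pos hZ h2 hχ (hne1 g)
  have hdle : ∀ g : ℝ, ∀ χ ∈ S, Z χ (1 / 2 + (g:ℂ) * I) = 0 → dmin P Z d g ≤ d χ := by
    intro g χ hχ h0
    exact Nat.sInf_le ⟨χ, (hP χ).2 hχ, h0, rfl⟩
  have hle : ∀ g : Gs f, dmin P Z d g.1 ≤ ∑ χ ∈ S, d χ * analyticOrderNatAt (Z χ) (1 / 2 + (g.1:ℂ) * I) := by
    intro g
    obtain ⟨χ, hχ, h0⟩ := (hfz _ (ne_half _)).1 g.2.2
    have h3 := (hop χ hχ g.1).2 h0
    calc dmin P Z d g.1 ≤ d χ := hdle _ χ hχ h0
      _ ≤ d χ * analyticOrderNatAt (Z χ) (1 / 2 + (g.1:ℂ) * I) := Nat.le_mul_of_pos_right _ h3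
      _ ≤ _ := Finset.single_le_sum (f := fun χ => d χ * analyticOrderNatAt (Z χ) (1 / 2 + (g.1:ℂ) * I))
          (fun _ _ => Nat.zero_le _) hχ
  have hpos : ∀ g : Gs f, (0:ℝ) < 2 / (1 + g.1 ^ 2) := fun g => by positivity
  have hr : ∀ g, r g ≤ wt f g := by
    intro g
    rw [hwt]
    exact mul_le_mul_of_nonneg_right (by exact_mod_cast hle g) (hpos g).le
  have hreq : ∀ g, r g = wt f g ↔
      dmin P Z d g.1 = ∑ χ ∈ S, d χ * analyticOrderNatAt (Z χ) (1 / 2 + (g.1:ℂ) * I) := by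
    intro g
    rw [hwt]
    simp only [hrdef]
    rw [mul_left_inj' (hpos g).ne']
    exact_mod_cast Iff.rfl
  have hinj : (∀ g, r g = wt f g) ↔ Function.Injective (fun p : GamP P Z => p.1.1.2) := by
    constructor
    · intro h3 p p' hpp
      simp only at hpp
      have hg := (hreq (π p)).1 (h3 (π p))
      have hval : (π p).1 = p.1.1.2 := rfl
      rw [hval] at hg
      set o : X → ℕ := fun χ => analyticOrderNatAt (Z χ) (1 / 2 + (p.1.1.2:ℂ) * I) with ho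
      have hp1 : p.1.2 < o p.1.1.1 := p.2.2.2
      have hp2 : p'.1.2 < o p'.1.1.1 := by
        have := p'.2.2.2
        rw [← hpp] at this
        exact this
      have hS1 := (hP _).1 p.2.1
      have hS2 := (hP _).1 p'.2.1
      have hz1 : Z p.1.1.1 (1 / 2 + (p.1.1.2:ℂ) * I) = 0 := (hop _ hS1 _).1 (by show 0 < o p.1.1.1; omega)
      have hm := hdle _ _ hS1 hz1
      have hdp := hd _ hS1
      have hdp' := hd _ hS2
      by_cases hχ : p.1.1.1 = p'.1.1.1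
      · -- the same character
        have h4 : d p.1.1.1 * o p.1.1.1 ≤ d p.1.1.1 := by
          refine le_trans ?_ hm
          rw [hg]
          exact Finset.single_le_sum (f := fun χ => d χ * o χ) (fun _ _ => Nat.zero_le _) hS1
        have h5 : o p.1.1.1 ≤ 1 := by
          by_contra hcon
          push Not at hcon
          have : d p.1.1.1 * 2 ≤ d p.1.1.1 * o p.1.1.1 := Nat.mul_le_mul_left _ hcon
          omega
        have h6 : p.1.2 = p'.1.2 := by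
          rw [← hχ] at hp2
          omega
        apply Subtype.ext
        exact Prod.ext (Prod.ext hχ hpp) h6
      · exfalso
        have h4 : d p.1.1.1 * o p.1.1.1 + d p'.1.1.1 * o p'.1.1.1 ≤ dmin P Z d p.1.1.2 := by
          rw [hg, ← Finset.sum_pair (f := fun χ => d χ * o χ) hχ]
          refine Finset.sum_le_sum_of_subset ?_
          intro χ hχ'
          rw [Finset.mem_insert, Finset.mem_singleton] at hχ'
          rcases hχ' with rfl | rfl
          · exact hS1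
          · exact hS2
        have h5 : d p.1.1.1 ≤ d p.1.1.1 * o p.1.1.1 := Nat.le_mul_of_pos_right _ (by omega)
        have h6 : d p'.1.1.1 ≤ d p'.1.1.1 * o p'.1.1.1 := Nat.le_mul_of_pos_right _ (by omega)
        omega
    · intro hi g
      rw [hreq]
      set o : X → ℕ := fun χ => analyticOrderNatAt (Z χ) (1 / 2 + (g.1:ℂ) * I) with ho
      obtain ⟨χ, hχ, h0⟩ := (hfz _ (ne_half _)).1 g.2.2
      have h3 : 0 < o χ := (hop χ hχ g.1).2 h0
      have huniq : ∀ χ' ∈ S, ∀ j, j < o χ' → χ' = χ ∧ j = 0 := by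
        intro χ' hχ' j hj
        have h4 := @hi ⟨((χ', g.1), j), (hP _).2 hχ', g.2.1, hj⟩ ⟨((χ, g.1), 0), (hP _).2 hχ, g.2.1, h3⟩ rfl
        have h5 := congrArg Subtype.val h4
        simp only [Prod.mk.injEq] at h5
        exact ⟨h5.1.1, h5.2⟩
      have ho1 : o χ = 1 := by
        by_contra hne
        have := (huniq χ hχ 1 (by omega)).2
        omega
      have hsum : ∑ χ' ∈ S, d χ' * o χ' = d χ := by
        rw [Finset.sum_eq_single χ (fun χ' hχ' hne => ?_) (fun h5 => absurd hχ h5), ho1, mul_one]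
        have : o χ' = 0 := by
          by_contra hne'
          exact hne (huniq χ' hχ' 0 (Nat.pos_of_ne_zero hne')).1
        rw [this, mul_zero]
      show dmin P Z d g.1 = ∑ χ' ∈ S, d χ' * o χ'
      rw [hsum]
      refine le_antisymm (hdle _ χ hχ h0) ?_
      refine le_csInf ⟨d χ, χ, (hP χ).2 hχ, h0, rfl⟩ ?_
      rintro n ⟨χ', hχ', h5, rfl⟩
      have h6 := (hop χ' ((hP χ').1 hχ') g.1).2 h5
      rw [(huniq χ' ((hP χ').1 hχ') 0 h6).1]
  have hrs : Summable (rr P Z d) := by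
    have h3 : Summable fun g => 2 * r g :=
      Summable.of_nonneg_of_le (fun g => by have := hr0 g; positivity) (fun g => by have := hr g; linarith)
        (hw.mul_left 2)
    exact (h3.comp_injective κ.injective).congr fun g => hrr g
  have hts : ∑' g, rr P Z d g = ∑' g, 2 * r g := by
    rw [← κ.tsum_eq (fun g => 2 * r g)]
    exact tsum_congr fun g => (hrr g).symm
  have hDl : ∀ᶠ x in atTop, D x = Dd L δ (Real.log x) := by
    filter_upwards [eventually_gt_atTop 0] with x hx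
    exact hD x hx
  have hb' : (∃ C, ∀ᶠ x in atTop, D x ≤ C) → RHf f := by
    rintro ⟨C, hC⟩
    refine rh_of_le h (C := C) (ev_log.1 ?_)
    filter_upwards [hC, hDl] with x hx hx'
    rwa [← hx']
  have hlimD : RHf f → LimsupIs D (2 * M + ∑' p : GamP P Z, 4 * (d p.1.1.1 : ℝ) / (1 + p.1.1.2 ^ 2)) := by
    intro hR
    have e1 : ∑' p : GamP P Z, 4 * (d p.1.1.1 : ℝ) / (1 + p.1.1.2 ^ 2) = ∑' g, 2 * wt f g := by
      rw [tsum_congr fun p => (harg p).symm, tsum_mul_left, tsum_mul_left, hbt]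
    rw [limsup_log hDl, ← hmu0, e1]
    exact ⟨fun ε hε => upper_D h hR hε, fun ε hε => lower_D h hR hε⟩
  have hinjπ : Function.Injective π ↔ Function.Injective (fun p : GamP P Z => p.1.1.2) := by
    constructor
    · intro h1 p p' hpp
      exact h1 (Subtype.ext hpp)
    · intro h1 p p' hpp
      exact h1 (congrArg Subtype.val hpp)
  have hLI : LinearIndependent ℚ (fun p : GamP P Z => p.1.1.2) ↔
      (∀ g, r g = wt f g) ∧ LinearIndependent ℚ (fun g : Gs f => g.1) := by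
    rw [hinj, ← hinjπ]
    exact linInd_fib π hsurj
  have hred : ∀ e : ℝ, e ≤ M → ((RHf f ∧ (M : ℝ) = e ∧ Function.Injective (fun p : GamP P Z => p.1.1.2)) ↔
      LimsupLe D (2 * e + ∑' g, rr P Z d g)) := by
    intro e he
    rw [← hinj, ← hmu0, limsupLe_log hDl, hts]
    exact crit_red h r hr0 hr (by rw [hmu0]; exact he)
  obtain ⟨E, hE, hcrit⟩ := crit_red_two h
  refine ⟨(hbs.mul_left 2).congr fun p => harg p, hrs, ?_, ?_, ?_, Real.exp '' E, hE.image _, ?_⟩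
  · rw [hRH]
    exact ⟨fun hR => ⟨_, ((hlimD hR).1 1 one_pos).mono fun x hx => hx.le⟩, hb'⟩
  · rw [hRH]
    exact ⟨hlimD, fun h1 => hb' ⟨_, (h1.1 1 one_pos).mono fun x hx => hx.le⟩⟩
  · rw [hRH]
    exact hred
  · intro c hc hcE e he
    have hc0 : 0 < c := by linarith
    have h1 := hcrit (Real.log c) (Real.log_pos hc) (fun h2 => hcE ⟨_, h2, Real.exp_log hc0⟩) r hr0 hr e
      (by rw [hmu0]; exact he)
    have h4 : ∀ᶠ x in atTop, |D x + 2 * D (c * x)| =
        (fun u => |Dd L δ u + 2 * Dd L δ (u + Real.log c)|) (Real.log x) := by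
      filter_upwards [eventually_gt_atTop 0] with x hx
      rw [hD x hx, hD _ (mul_pos hc0 hx), Real.log_mul hc0.ne' hx.ne', add_comm (Real.log c)]
    have h5 : ∑' g : OrdP P Z, rr P Z d g * ‖1 + 2 * (c : ℂ) ^ (g.1 * I)‖ =
        ∑' g, 2 * r g * ‖zz g.1 (Real.log c)‖ := by
      rw [← κ.tsum_eq (fun g => 2 * r g * ‖zz g.1 (Real.log c)‖)]
      refine tsum_congr fun g => ?_
      rw [← hrr, hκ, cpow_eq hc0]
      rfl
    have h6 : LimsupGe (fun x => |D x + 2 * D (c * x)|) (6 * e + ∑' g, 2 * r g * ‖zz g.1 (Real.log c)‖) ↔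
        LimsupGe (fun u => |Dd L δ u + 2 * Dd L δ (u + Real.log c)|) (6 * e + ∑' g, 2 * r g * ‖zz g.1 (Real.log c)‖) :=
      limsupGe_log (W := fun x => |D x + 2 * D (c * x)|)
        (V' := fun u => |Dd L δ u + 2 * Dd L δ (u + Real.log c)|) h4
    rw [limsupLe_log hDl, h5, hts, h6, hRH, hLI, ← h1, hmu0]

end Pool.Agent.U349.EV
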