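import Pool.Agent.U349.OB.Boxes

/-!
# Kronecker's theorem for one-parameter groups
-/

set_option autoImplicit false

namespace Pool.Agent.U349.EV

open Finset Filter Topology
open Pool.Agent.H469R2.NK (e norm_e e_add e_zero conj_e)
open Pool.Agent.U349.OB

lemma exists_tau {d : ℕ} (g : Fin d → ℝ) (hg : ∀ l : Fin d → ℤ, l ≠ 0 → ∑ j, (l j : ℝ) * g j ≠ 0) :
    ∃ τ : ℝ, 0 < τ ∧ ∀ l : Fin d → ℤ, l ≠ 0 → ∀ k : ℤ, ∑ j, (l j : ℝ) * (τ * g j) ≠ k := by
  set B : Set ℝ := ⋃ p : (Fin d → ℤ) × ℤ, {(p.2 : ℝ) / ∑ j, (p.1 j : ℝ) * g j} with hB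
  have hc : B.Countable := Set.countable_iUnion fun p => Set.countable_singleton _
  obtain ⟨τ, hτ, hτB⟩ := (hc.dense_compl ℝ).inter_open_nonempty (Set.Ioi 0) isOpen_Ioi ⟨1, by simp⟩
  refine ⟨τ, hτ, fun l hl k hk => hτB ?_⟩
  rw [hB, Set.mem_iUnion]
  refine ⟨(l, k), ?_⟩
  rw [Set.mem_singleton_iff, eq_div_iff (hg l hl), ← hk, mul_sum]
  exact sum_congr rfl fun j _ => by ring

lemma geo_bound {x : ℝ} (hx : ∀ k : ℤ, x ≠ k) : ∃ C : ℝ, ∀ N : ℕ, ‖∑ n ∈ Icc 1 N, e ((n : ℝ) * x)‖ ≤ C := by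
  have hne : e x - 1 ≠ 0 := by
    intro h
    have h1 : e x = 1 := sub_eq_zero.1 h
    unfold e at h1
    rw [Complex.exp_eq_one_iff] at h1
    obtain ⟨k, hk⟩ := h1
    apply hx k
    have h2 : (2 * (Real.pi : ℂ) * Complex.I) ≠ 0 := by
      simp [Real.pi_ne_zero]
    have h3 : ((x : ℝ) : ℂ) = k := by
      apply mul_left_cancel₀ h2
      push_cast at hk
      linear_combination hk
    exact_mod_cast h3
  have hpow : ∀ n : ℕ, e ((n : ℝ) * x) = e x ^ n := by
    intro n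
    induction n with
    | zero => simp [e_zero]
    | succ n ih => rw [pow_succ, ← ih, ← e_add]; congr 1; push_cast; ring
  refine ⟨2 / ‖e x - 1‖, fun N => ?_⟩
  have h1 : (∑ n ∈ Icc 1 N, e ((n : ℝ) * x)) * (e x - 1) = e x ^ (N + 1) - e x := by
    simp only [hpow]
    induction N with
    | zero => simp
    | succ N ih =>
      rw [Finset.sum_Icc_succ_top (by omega), add_mul, ih]
      ring
  have hp : 0 < ‖e x - 1‖ := norm_pos_iff.2 hne
  rw [le_div_iff₀ hp, ← norm_mul, h1]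
  refine (norm_sub_le _ _).trans ?_
  rw [norm_pow, norm_e, one_pow]
  norm_num

/-- **Kronecker's theorem** -/
theorem kron {d : ℕ} (g : Fin d → ℝ) (hg : ∀ l : Fin d → ℤ, l ≠ 0 → ∑ j, (l j : ℝ) * g j ≠ 0)
    (β : Fin d → ℝ) {ε : ℝ} (hε : 0 < ε) (T : ℝ) :
    ∃ t : ℝ, T ≤ t ∧ ∀ j, 1 - ε < Real.cos (g j * t + β j) := by
  have hpi := Real.pi_pos
  obtain ⟨τ, hτ, hτ2⟩ := exists_tau (fun j => g j / (2 * Real.pi)) (by
    intro l hl h0
    apply hg l hl
    have : ∑ j, (l j : ℝ) * g j = (2 * Real.pi) * ∑ j, (l j : ℝ) * (g j / (2 * Real.pi)) := by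
      rw [mul_sum]
      exact sum_congr rfl fun j _ => by field_simp
    rw [this, h0, mul_zero])
  set v : ℕ → Fin d → ℝ := fun n j => (n : ℝ) * (τ * (g j / (2 * Real.pi))) + β j / (2 * Real.pi) with hv
  have hbox : BoxEqui v := by
    refine boxEqui_of_weyl v fun l hl ε hε => ?_
    obtain ⟨C, hC⟩ := geo_bound (hτ2 l hl)
    obtain ⟨N0, hN0⟩ := exists_nat_gt (C / ε)
    refine ⟨N0, fun N hN => ?_⟩
    have h1 : ∀ n : ℕ, e (∑ j, (l j : ℝ) * v n j) =
        e (∑ j, (l j : ℝ) * (β j / (2 * Real.pi))) * e ((n : ℝ) * ∑ j, (l j : ℝ) * (τ * (g j / (2 * Real.pi)))) := by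
      intro n
      rw [← e_add]
      congr 1
      rw [mul_sum, ← sum_add_distrib]
      exact sum_congr rfl fun j _ => by simp only [hv]; ring
    simp only [h1]
    rw [← mul_sum, norm_mul, norm_e, one_mul]
    refine (hC N).trans ?_
    rw [div_lt_iff₀ hε] at hN0
    have : (N0 : ℝ) ≤ N := by exact_mod_cast hN
    nlinarith
  -- the box
  obtain ⟨η, hη0, hη1, hη2⟩ : ∃ η : ℝ, 0 < η ∧ η ≤ 1 ∧ (2 * Real.pi * η) ^ 2 / 2 < ε := by
    have hcont : Tendsto (fun η : ℝ => (2 * Real.pi * η) ^ 2 / 2) (𝓝[>] 0) (𝓝 0) := by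
      have : Continuous fun η : ℝ => (2 * Real.pi * η) ^ 2 / 2 := by fun_prop
      have h2 := this.tendsto 0
      simp only [mul_zero, ne_eq, OfNat.ofNat_ne_zero, not_false_eq_true, zero_pow, zero_div] at h2
      exact h2.mono_left nhdsWithin_le_nhds
    have h3 := (hcont.eventually_lt_const hε).and (Ioc_mem_nhdsGT (zero_lt_one : (0:ℝ) < 1))
    obtain ⟨η, h4, h5⟩ := h3.exists
    exact ⟨η, h5.1, h5.2, h4⟩
  have h1 := hbox (fun _ => 0) (fun _ => η) (fun _ => le_rfl) (fun _ => hη0) (fun _ => hη1)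
  have hpos : (0:ℝ) < ∏ _j : Fin d, (η - 0) := prod_pos fun _ _ => by simpa using hη0
  obtain ⟨N0, hN0⟩ := exists_nat_gt (T / τ)
  have hex : ∃ n : ℕ, N0 < n ∧ ∀ j, 0 ≤ Int.fract (v n j) ∧ Int.fract (v n j) < η := by
    by_contra hcon
    push Not at hcon
    have h2 : Tendsto (fun N : ℕ => (N0 : ℝ) / N) atTop (𝓝 0) :=
      tendsto_const_nhds.div_atTop tendsto_natCast_atTop_atTop
    have h3 : ∀ N : ℕ, (((Icc 1 N).filter (fun n : ℕ => ∀ j, (0:ℝ) ≤ Int.fract (v n j) ∧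
      Int.fract (v n j) < η)).card : ℝ) / (N : ℝ) ≤ (N0 : ℝ) / N := by
      intro N
      refine div_le_div_of_nonneg_right ?_ (Nat.cast_nonneg _)
      have : ((Icc 1 N).filter (fun n : ℕ => ∀ j, (0:ℝ) ≤ Int.fract (v n j) ∧
        Int.fract (v n j) < η)) ⊆ Icc 1 N0 := by
        intro n hn
        rw [mem_filter, mem_Icc] at hn
        rw [mem_Icc]
        refine ⟨hn.1.1, ?_⟩
        by_contra hlt
        obtain ⟨j, hj⟩ := hcon n (by omega)
        have := hn.2 j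
        exact absurd this.2 (not_lt.2 (hj this.1))
      have h4 := card_le_card this
      rw [Nat.card_Icc] at h4
      exact_mod_cast (by omega : _ ≤ N0)
    have h5 := le_of_tendsto_of_tendsto' h1 h2 h3
    linarith
  obtain ⟨n, hn, hj⟩ := hex
  refine ⟨n * τ, ?_, fun j => ?_⟩
  · rw [div_lt_iff₀ hτ] at hN0
    have : (N0 : ℝ) ≤ n := by exact_mod_cast hn.le
    nlinarith
  · have e1 : g j * (n * τ) + β j = 2 * Real.pi * Int.fract (v n j) + (⌊v n j⌋ : ℤ) * (2 * Real.pi) := by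
      have h6 : v n j = ⌊v n j⌋ + Int.fract (v n j) := (Int.floor_add_fract _).symm
      have h7 : g j * (n * τ) + β j = 2 * Real.pi * v n j := by
        simp only [hv]; field_simp
      rw [h7]
      conv_lhs => rw [h6]
      ring
    rw [e1, Real.cos_add_int_mul_two_pi]
    have h8 := Real.one_sub_sq_div_two_le_cos (x := 2 * Real.pi * Int.fract (v n j))
    have h9 := hj j
    have h10 : (2 * Real.pi * Int.fract (v n j)) ^ 2 ≤ (2 * Real.pi * η) ^ 2 := by
      apply pow_le_pow_left₀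
      · have := h9.1; positivity
      · exact mul_le_mul_of_nonneg_left h9.2.le (by positivity)
    linarith

end Pool.Agent.U349.EV
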