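import Pool.Agent.U349.EV.Phase
import Pool.Agent.U544.LI.SetCrit

/-!
# The extreme values of the smoothed error term and linear independence
-/

set_option autoImplicit false

namespace Pool.Agent.U349.EV

open Finset Filter Topology Complex MeasureTheory
open Pool.Agent.U544.LI

/-- `limsup_{x → ∞} W(x) = V` -/
def LimsupIs (W : ℝ → ℝ) (V : ℝ) : Prop :=
  (∀ ε : ℝ, 0 < ε → ∀ᶠ x in atTop, W x < V + ε) ∧ (∀ ε : ℝ, 0 < ε → ∃ᶠ x in atTop, V - ε < W x)

variable {f : ℂ → ℂ} {L : ℕ → ℝ} {δ : ℝ}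

/-- an upper bound implies the Riemann hypothesis -/
lemma rh_of_le (h : LD f L δ) {C : ℝ} (hC : ∀ᶠ u in atTop, Dd L δ u ≤ C) : RHf f := by
  have hc : Continuous fun u => Real.exp (1 * Dd L δ u) := by
    have := Dd_cont h
    fun_prop
  obtain ⟨U0, hU0⟩ := eventually_atTop.1 hC
  set T := max U0 1 with hT
  have hT1 : 1 ≤ T := le_max_right _ _
  set A := ∫ u in (0:ℝ)..T, Real.exp (1 * Dd L δ u) with hA
  have hA0 : 0 ≤ A := intervalIntegral.integral_nonneg (by linarith) fun u _ => (Real.exp_pos _).le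
  refine rh_of_bdd h one_pos ⟨A + Real.exp C, ?_⟩
  filter_upwards [eventually_ge_atTop T] with U hU
  unfold mean
  rw [div_le_iff₀ (by linarith),
    ← intervalIntegral.integral_add_adjacent_intervals (hc.intervalIntegrable 0 T) (hc.intervalIntegrable T U)]
  have h1 : ∫ u in T..U, Real.exp (1 * Dd L δ u) ≤ ∫ _u in T..U, Real.exp C := by
    refine intervalIntegral.integral_mono_on hU (hc.intervalIntegrable _ _) (by simp) fun u hu => ?_
    rw [one_mul]
    exact Real.exp_le_exp.2 (hU0 u ((le_max_left _ _).trans hu.1))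
  rw [intervalIntegral.integral_const, smul_eq_mul] at h1
  have h2 := Real.exp_pos C
  nlinarith

/-- boundedness of `d(u) + 2 d(u + h)` implies boundedness of `d` -/
lemma bdd_of_W {d : ℝ → ℝ} (hd : Continuous d) {h C : ℝ} (hh : 0 < h)
    (hW : ∀ᶠ u in atTop, |d u + 2 * d (u + h)| ≤ C) : ∃ M, ∀ᶠ u in atTop, |d u| ≤ M := by
  obtain ⟨U0, hU0⟩ := eventually_atTop.1 hW
  obtain ⟨B, hB⟩ := (isCompact_Icc (a := U0) (b := U0 + h)).exists_bound_of_continuousOn hd.continuousOn
  set M := max B C with hM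
  have key : ∀ k : ℕ, ∀ u, U0 + k * h ≤ u → u ≤ U0 + (k + 1) * h → |d u| ≤ M := by
    intro k
    induction k with
    | zero =>
      intro u h1 h2
      have := hB u ⟨by simpa using h1, by simpa using h2⟩
      rw [Real.norm_eq_abs] at this
      exact this.trans (le_max_left _ _)
    | succ k ih =>
      intro u h1 h2
      push_cast at h1 h2
      have h3 := ih (u - h) (by linarith) (by linarith)
      have h4 : U0 ≤ u - h := by
        have : (0:ℝ) ≤ k * h := by positivity
        linarith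
      have h5 := hU0 (u - h) h4
      rw [sub_add_cancel] at h5
      have h6 : C ≤ M := le_max_right _ _
      rw [abs_le] at h3 h5 ⊢
      constructor <;> linarith [h3.1, h3.2, h5.1, h5.2]
  refine ⟨M, ?_⟩
  filter_upwards [eventually_ge_atTop U0] with u hu
  set k := ⌊(u - U0) / h⌋₊ with hk
  have h1 : (k:ℝ) ≤ (u - U0) / h := Nat.floor_le (div_nonneg (by linarith) hh.le)
  have h2 : (u - U0) / h < k + 1 := Nat.lt_floor_add_one _
  rw [le_div_iff₀ hh] at h1
  rw [div_lt_iff₀ hh] at h2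
  exact key k u (by linarith) (by linarith)

/-- the amplitudes of `∑ w_j d(u + h_j)` -/
noncomputable def Am (f : ℂ → ℂ) {m : ℕ} (w hs : Fin m → ℝ) (g : Gs f) : ℂ :=
  ((2 * wt f g : ℝ) : ℂ) * ∑ j, (w j : ℂ) * cexp (g.1 * hs j * I)

lemma Am_summ (h : LD f L δ) {m : ℕ} (w hs : Fin m → ℝ) : Summable fun g => ‖Am f w hs g‖ := by
  refine Summable.of_nonneg_of_le (fun _ => norm_nonneg _) (fun g => ?_) (((wt_summ h).mul_left 2).mul_right (∑ j, |w j|))
  unfold Am
  rw [norm_mul, Complex.norm_real, Real.norm_of_nonneg (by have := wt_pos h g; positivity)]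
  refine mul_le_mul_of_nonneg_left ((norm_sum_le _ _).trans (sum_le_sum fun j _ => ?_))
    (by have := wt_pos h g; positivity)
  rw [norm_mul, norm_ex, mul_one, Complex.norm_real, Real.norm_eq_abs]

lemma re_term (w g x u : ℝ) : ((w : ℂ) * cexp (g * x * I) * cexp (g * u * I)).re = w * Real.cos (g * (u + x)) := by
  rw [mul_assoc, ← Complex.exp_add, Complex.re_ofReal_mul,
    show ((g:ℂ) * x * I + g * u * I) = ((g * (u + x) : ℝ) : ℂ) * I by push_cast; ring,
    Complex.exp_ofReal_mul_I_re]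

lemma Am_F (h : LD f L δ) {m : ℕ} (w hs : Fin m → ℝ) (u : ℝ) :
    ∑ j, w j * DD (wt f) (fun g : Gs f => g.1) (u + hs j) = F (Am f w hs) (fun g : Gs f => g.1) u := by
  unfold F DD
  have h1 : ∀ j, w j * ∑' g : Gs f, 2 * wt f g * Real.cos (g.1 * (u + hs j)) =
      ∑' g : Gs f, w j * (2 * wt f g * Real.cos (g.1 * (u + hs j))) := fun j => tsum_mul_left.symm
  simp only [h1]
  rw [← Summable.tsum_finsetSum (fun j _ => (summ_D (γ := fun g : Gs f => g.1) (wt_pos h) (wt_summ h) (u + hs j)).mul_left (w j))]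
  refine tsum_congr fun g => ?_
  unfold Am
  rw [mul_assoc, sum_mul, Complex.re_ofReal_mul, Complex.re_sum, mul_sum]
  refine sum_congr rfl fun j _ => ?_
  rw [re_term (w j) g.1 (hs j) u]
  ring

/-- the asymptotic expansion of the combinations -/
lemma asymW (h : LD f L δ) (hR : RHf f) {m : ℕ} (w hs : Fin m → ℝ) :
    Tendsto (fun u => ∑ j, w j * Dd L δ (u + hs j) -
      (2 * (mu f 0 : ℝ) * (∑ j, w j) + F (Am f w hs) (fun g : Gs f => g.1) u)) atTop (𝓝 0) := by
  have h1 := asym h fun w hw => nonpos_of_rh h hR hw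
  have h2 : ∀ j, Tendsto (fun u => w j * (Dd L δ (u + hs j) -
      (2 * (mu f 0 : ℝ) + DD (wt f) (fun g : Gs f => g.1) (u + hs j)))) atTop (𝓝 0) := by
    intro j
    have := (h1.comp (tendsto_atTop_add_const_right atTop (hs j) tendsto_id)).const_mul (w j)
    simpa using this
  have h3 := tendsto_finsetSum univ fun j _ => h2 j
  simp only [sum_const_zero] at h3
  refine h3.congr fun u => ?_
  rw [← Am_F h]
  simp only [mul_sub, mul_add, sum_sub_distrib, sum_add_distrib]
  rw [mul_sum]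
  congr 2
  exact sum_congr rfl fun j _ => by ring

/-- upper bounds -/
theorem upper (h : LD f L δ) (hR : RHf f) {m : ℕ} (w hs : Fin m → ℝ) {ε : ℝ} (hε : 0 < ε) :
    ∀ᶠ u in atTop, ∑ j, w j * Dd L δ (u + hs j) <
      2 * (mu f 0 : ℝ) * (∑ j, w j) + ∑' g, ‖Am f w hs g‖ + ε := by
  filter_upwards [(asymW h hR w hs).eventually_lt_const hε] with u hu
  have := F_le (Am_summ h w hs) (fun g : Gs f => g.1) u
  linarith

/-- linear independence: the upper bounds are attained -/
theorem lower_of_free (h : LD f L δ) (hR : RHf f) (hLI : LinearIndependent ℚ (fun g : Gs f => g.1)) {m : ℕ}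
    (w hs : Fin m → ℝ) {ε : ℝ} (hε : 0 < ε) :
    ∃ᶠ u in atTop, 2 * (mu f 0 : ℝ) * (∑ j, w j) + ∑' g, ‖Am f w hs g‖ - ε < ∑ j, w j * Dd L δ (u + hs j) := by
  rw [Filter.frequently_atTop]
  intro U
  have h1 := (asymW h hR w hs).eventually_const_lt (show -(ε / 2) < 0 by linarith)
  obtain ⟨U1, hU1⟩ := eventually_atTop.1 h1
  obtain ⟨t, ht, h2⟩ := sup_of_free (Am_summ h w hs) (g := fun g : Gs f => g.1)
    (fun S n hn => (linInd_iff.1 hLI) S n hn) (half_pos hε) (max U U1)
  refine ⟨t, (le_max_left _ _).trans ht, ?_⟩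
  have h3 := hU1 t ((le_max_right _ _).trans ht)
  linarith

/-- the error term itself always attains its bound -/
theorem lower_D (h : LD f L δ) (hR : RHf f) {ε : ℝ} (hε : 0 < ε) :
    ∃ᶠ u in atTop, 2 * (mu f 0 : ℝ) + ∑' g, 2 * wt f g - ε < Dd L δ u := by
  rw [Filter.frequently_atTop]
  intro U
  have h0 := asym h fun w hw => nonpos_of_rh h hR hw
  obtain ⟨U1, hU1⟩ := eventually_atTop.1 (h0.eventually_const_lt (show -(ε / 2) < 0 by linarith))
  obtain ⟨t, ht, h2⟩ := sup_of_nonneg (a := fun g : Gs f => 2 * wt f g)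
    (fun g => by have := wt_pos h g; positivity) ((wt_summ h).mul_left 2) (fun g : Gs f => g.1) (half_pos hε) (max U U1)
  refine ⟨t, (le_max_left _ _).trans ht, ?_⟩
  have h3 := hU1 t ((le_max_right _ _).trans ht)
  have h4 : F (fun g : Gs f => ((2 * wt f g : ℝ) : ℂ)) (fun g : Gs f => g.1) t = DD (wt f) (fun g : Gs f => g.1) t := by
    unfold F DD
    refine tsum_congr fun g => ?_
    rw [Complex.re_ofReal_mul, show ((g.1:ℂ) * t * I) = ((g.1 * t : ℝ) : ℂ) * I by push_cast; ring,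
      Complex.exp_ofReal_mul_I_re]
  rw [h4] at h2
  linarith

/-- upper bound for the error term -/
theorem upper_D (h : LD f L δ) (hR : RHf f) {ε : ℝ} (hε : 0 < ε) :
    ∀ᶠ u in atTop, Dd L δ u < 2 * (mu f 0 : ℝ) + ∑' g, 2 * wt f g + ε := by
  have h0 := asym h fun w hw => nonpos_of_rh h hR hw
  filter_upwards [h0.eventually_lt_const hε] with u hu
  have h1 : DD (wt f) (fun g : Gs f => g.1) u ≤ ∑' g, 2 * wt f g := by
    unfold DD
    refine (summ_D (γ := fun g : Gs f => g.1) (wt_pos h) (wt_summ h) u).tsum_le_tsum (fun g => ?_) ((wt_summ h).mul_left 2)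
    have := wt_pos h g
    have := Real.cos_le_one (g.1 * u)
    nlinarith
  linarith

/-- the total amplitude of `d(u) + 2 d(u + h)` -/
noncomputable def VV (f : ℂ → ℂ) (x : ℝ) : ℝ := 6 * (mu f 0 : ℝ) + ∑' g : Gs f, 2 * wt f g * ‖zz g.1 x‖

lemma Am_two (x : ℝ) (g : Gs f) : Am f ![1, 2] ![0, x] g = ((2 * wt f g : ℝ) : ℂ) * zz g.1 x := by
  unfold Am zz
  rw [Fin.sum_univ_two]
  simp

lemma norm_Am_two (h : LD f L δ) (x : ℝ) (g : Gs f) : ‖Am f ![1, 2] ![0, x] g‖ = 2 * wt f g * ‖zz g.1 x‖ := by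
  rw [Am_two, norm_mul, Complex.norm_real, Real.norm_of_nonneg (by have := wt_pos h g; positivity)]

lemma sum_two (x u : ℝ) : ∑ j, (![1, 2] : Fin 2 → ℝ) j * Dd L δ (u + (![0, x] : Fin 2 → ℝ) j) =
    Dd L δ u + 2 * Dd L δ (u + x) := by
  rw [Fin.sum_univ_two]
  simp

/-- **the criterion** -/
theorem crit_abs (h : LD f L δ) : ∃ E : Set ℝ, E.Countable ∧ ∀ x : ℝ, 0 < x → x ∉ E →
    (RHf f ∧ LinearIndependent ℚ (fun g : Gs f => g.1) ↔
      LimsupIs (fun u => |Dd L δ u + 2 * Dd L δ (u + x)|) (VV f x)) := by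
  classical
  have hV : ∀ x, VV f x = 2 * (mu f 0 : ℝ) * (∑ j, (![1, 2] : Fin 2 → ℝ) j) + ∑' g, ‖Am f ![1, 2] ![0, x] g‖ := by
    intro x
    unfold VV
    rw [tsum_congr fun g => norm_Am_two h x g, Fin.sum_univ_two]
    simp only [Matrix.cons_val_zero, Matrix.cons_val_one]
    ring
  have hmu : (0:ℝ) ≤ mu f 0 := Nat.cast_nonneg _
  by_cases hLI : LinearIndependent ℚ (fun g : Gs f => g.1)
  · refine ⟨∅, Set.countable_empty, fun x hx _ => ⟨fun hR => ?_, fun hlim => ⟨?_, hLI⟩⟩⟩
    · refine ⟨fun ε hε => ?_, fun ε hε => ?_⟩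
      · have h1 := upper h hR.1 ![1, 2] ![0, x] hε
        have h2 := upper h hR.1 (fun j => -(![1, 2] : Fin 2 → ℝ) j) ![0, x] hε
        have h3 : ∀ g, ‖Am f (fun j => -(![1, 2] : Fin 2 → ℝ) j) ![0, x] g‖ = ‖Am f ![1, 2] ![0, x] g‖ := by
          intro g
          rw [← norm_neg]
          congr 1
          unfold Am
          rw [← mul_neg, ← sum_neg_distrib]
          congr 1
          exact sum_congr rfl fun j _ => by push_cast; ring
        filter_upwards [h1, h2] with u hu1 hu2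
        simp only [h3, neg_mul, sum_neg_distrib] at hu2
        rw [sum_two] at hu1 hu2
        rw [hV, abs_lt]
        rw [Fin.sum_univ_two] at hu1 hu2 ⊢
        simp only [Matrix.cons_val_zero, Matrix.cons_val_one] at hu1 hu2 ⊢
        constructor <;> linarith
      · refine (lower_of_free h hR.1 hLI ![1, 2] ![0, x] hε).mono fun u hu => ?_
        rw [sum_two, ← hV] at hu
        exact hu.trans_le (le_abs_self _)
    · have h1 := (hlim.1 1 one_pos).mono fun u hu => hu.le
      obtain ⟨M, hM⟩ := bdd_of_W (Dd_cont h) hx h1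
      exact rh_of_le h (hM.mono fun u hu => (le_abs_self _).trans hu)
  · -- there is a relation
    have hrel : ∃ S : Finset (Gs f), ∃ n : Gs f → ℤ, ∑ g ∈ S, (n g : ℝ) * g.1 = 0 ∧ ∃ g₀ ∈ S, n g₀ ≠ 0 := by
      rw [linInd_iff] at hLI
      unfold Free at hLI
      push Not at hLI
      obtain ⟨S, n, hn, g₀, hg₀, hne⟩ := hLI
      exact ⟨S, n, hn, g₀, hg₀, hne⟩
    obtain ⟨S, n, hn, g₀, hg₀, hne⟩ := hrel
    refine ⟨_, exceptional S (g := fun g : Gs f => g.1) (fun g => g.2.1) (fun a b hab => Subtype.ext hab) n hg₀ hne,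
      fun x hx hxE => ⟨fun hR => absurd hR.2 hLI, fun hlim => ?_⟩⟩
    exfalso
    have h1 := (hlim.1 1 one_pos).mono fun u hu => hu.le
    obtain ⟨M, hM⟩ := bdd_of_W (Dd_cont h) hx h1
    have hR : RHf f := rh_of_le h (hM.mono fun u hu => (le_abs_self _).trans hu)
    have hA := Am_summ h ![1, 2] ![0, x]
    have hasy := asymW h hR ![1, 2] ![0, x]
    set A := Am f ![1, 2] ![0, x] with hAdef
    have hA0 : ∀ g ∈ S, A g ≠ 0 := by
      intro g _
      rw [hAdef, Am_two]
      refine mul_ne_zero ?_ (zz_real_ne _ _)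
      have := wt_pos h g
      exact_mod_cast (by positivity : (2 * wt f g : ℝ) ≠ 0)
    have hphase : ∀ g, A g / ‖A g‖ = zz g.1 x / ‖zz g.1 x‖ := by
      intro g
      have hw := wt_pos h g
      rw [hAdef, norm_Am_two h, Am_two]
      push_cast
      have h3 : ((2:ℂ) * (wt f g : ℂ)) ≠ 0 := by
        exact_mod_cast (by positivity : (2 * wt f g : ℝ) ≠ 0)
      rw [mul_div_mul_left _ _ h3]
    -- one of the signs
    have hor : (∀ ε : ℝ, 0 < ε → ∃ t : ℝ, ∑' g, ‖A g‖ - ε < F A (fun g : Gs f => g.1) t) ∨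
        (∀ ε : ℝ, 0 < ε → ∃ t : ℝ, ∑' g, ‖A g‖ - ε < F (fun g => -A g) (fun g : Gs f => g.1) t) := by
      by_contra hcon
      push Not at hcon
      obtain ⟨⟨ε1, hε1, h1⟩, ε2, hε2, h2⟩ := hcon
      have hneg : ∀ t, F (fun g => -A g) (fun g : Gs f => g.1) t = -F A (fun g : Gs f => g.1) t := by
        intro t
        unfold F
        rw [← tsum_neg]
        exact tsum_congr fun g => by rw [neg_mul, Complex.neg_re]
      set ε := min ε1 ε2 with hε
      have hε0 : 0 < ε := lt_min hε1 hε2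
      have h3 := hasy.eventually_lt_const (show (0:ℝ) < ε / 4 by linarith)
      have h4 := hasy.eventually_const_lt (show -(ε / 4) < (0:ℝ) by linarith)
      obtain ⟨u, hu, hu3, hu4⟩ := ((hlim.2 (ε / 4) (by linarith)).and_eventually (h3.and h4)).exists
      rw [sum_two] at hu3 hu4
      rw [hV] at hu
      have a1 := h1 u
      have a2 := h2 u
      rw [hneg] at a2
      have a3 : ε ≤ ε1 := min_le_left _ _
      have a4 : ε ≤ ε2 := min_le_right _ _
      rw [Fin.sum_univ_two] at hu hu3 hu4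
      simp only [Matrix.cons_val_zero, Matrix.cons_val_one] at hu hu3 hu4
      rcases lt_abs.1 hu with h5 | h5 <;> linarith
    apply hxE
    simp only [Set.mem_ofPred_eq]
    rcases hor with h1 | h1
    · have h2 := phase_of_sup hA S n hn hA0 h1
      simp only [hphase] at h2
      rw [h2, one_pow]
    · have hA' : Summable fun g => ‖-A g‖ := by simpa only [norm_neg] using hA
      have h2 := phase_of_sup hA' S n hn (fun g hg => neg_ne_zero.2 (hA0 g hg)) (by simpa only [norm_neg] using h1)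
      have h3 : ∀ g, -A g / ‖-A g‖ = (-1) * (zz g.1 x / ‖zz g.1 x‖) := by
        intro g
        rw [norm_neg, neg_div, hphase]
        ring
      simp only [h3, mul_zpow, prod_mul_distrib] at h2
      have h4 : (∏ g ∈ S, (-1 : ℂ) ^ n g) ^ 2 = 1 := by
        rw [← prod_pow]
        refine prod_eq_one fun g _ => ?_
        rw [← zpow_natCast, ← zpow_mul, mul_comm, zpow_mul]
        norm_num
      have h5 := congrArg (fun z : ℂ => z ^ 2) h2
      simp only [mul_pow, h4, one_mul, one_pow] at h5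
      exact h5

end Pool.Agent.U349.EV
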