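import Pool.Agent.U349.EV.Core

/-!
# The phases of `1 + 2 e^{i g h}` satisfy no relation for most `h`
-/

set_option autoImplicit false

namespace Pool.Agent.U349.EV

open Finset Filter Topology Complex
open scoped ComplexConjugate

variable {ι : Type*}

/-- the zeros on the real line of an entire function -/
lemma countable_zeros {G : ℂ → ℂ} (hG : Differentiable ℂ G) {w : ℂ} (hw : G w ≠ 0) :
    {h : ℝ | G h = 0}.Countable := by
  have hco : ∀ z : ℂ, ∀ᶠ y in 𝓝[≠] z, G y ≠ 0 := by
    have hG' : AnalyticOnNhd ℂ G Set.univ := fun z _ => hG.analyticAt z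
    intro z
    by_contra hcon
    have h1 : ∃ᶠ y in 𝓝[≠] z, G y = 0 := by
      rw [Filter.not_eventually] at hcon
      exact hcon.mono fun y hy => not_not.1 hy
    have h2 := hG'.eqOn_zero_of_preconnected_of_frequently_eq_zero isPreconnected_univ (Set.mem_univ z) h1
    exact hw (h2 (Set.mem_univ w))
  have h1 : ∀ x : ℝ, ∀ᶠ y : ℝ in 𝓝[≠] x, G y ≠ 0 := by
    intro x
    have h2 : Tendsto (fun y : ℝ => (y : ℂ)) (𝓝[≠] x) (𝓝[≠] (x : ℂ)) := by
      refine tendsto_nhdsWithin_of_tendsto_nhds_of_eventually_within _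
        (Complex.continuous_ofReal.continuousAt.mono_left nhdsWithin_le_nhds) ?_
      filter_upwards [self_mem_nhdsWithin] with y hy
      simpa using hy
    exact h2.eventually (hco x)
  have h3 : DiscreteTopology {h : ℝ | G h = 0} := by
    rw [discreteTopology_subtype_iff]
    intro x _
    rw [← disjoint_iff, Filter.disjoint_principal_right]
    exact h1 x
  exact (TopologicalSpace.separableSpace_iff_countable.1 inferInstance : Countable {h : ℝ | G h = 0}).to_set

/-- `1 + 2 e^{i x w}` -/
noncomputable def zz (x : ℝ) (w : ℂ) : ℂ := 1 + 2 * cexp (x * w * I)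

lemma zz_conj (x h : ℝ) : conj (zz x h) = zz (-x) h := by
  unfold zz
  rw [map_add, map_one, map_mul, ← Complex.exp_conj, show conj (2:ℂ) = 2 from Complex.conj_ofNat 2]
  simp [Complex.conj_ofReal]

lemma zz_ne {x : ℝ} {w : ℂ} (h : x * w.im ≠ Real.log 2) : zz x w ≠ 0 := by
  intro h0
  unfold zz at h0
  have h1 : 2 * cexp (x * w * I) = -1 := by linear_combination h0
  have h2 := congrArg norm h1
  rw [norm_mul, norm_neg, norm_one, Complex.norm_exp] at h2
  have h3 : ((x:ℂ) * w * I).re = -(x * w.im) := by simp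
  rw [h3, Complex.norm_ofNat] at h2
  apply h
  have h4 : Real.exp (-(x * w.im)) = 2⁻¹ := by linarith
  have h5 := congrArg Real.log h4
  rw [Real.log_exp, Real.log_inv] at h5
  linarith

lemma zz_real_ne (x h : ℝ) : zz x h ≠ 0 := by
  apply zz_ne
  rw [Complex.ofReal_im, mul_zero]
  exact (Real.log_pos one_lt_two).ne

lemma zz_diff (x : ℝ) : Differentiable ℂ (zz x) := by
  unfold zz
  fun_prop

/-- **for all but countably many `h` the phases do not satisfy a given relation** -/
theorem exceptional (S : Finset ι) {g : ι → ℝ} (hpos : ∀ i, 0 < g i) (hinj : Function.Injective g) (n : ι → ℤ)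
    {i₀ : ι} (hi : i₀ ∈ S) (hn : n i₀ ≠ 0) :
    {h : ℝ | (∏ i ∈ S, (zz (g i) h / ‖zz (g i) h‖) ^ n i) ^ 2 = 1}.Countable := by
  classical
  set P : ℂ → ℂ := fun w => ∏ i ∈ S, (zz (g i) w ^ (n i).toNat * zz (-g i) w ^ (-n i).toNat) with hP
  set Q : ℂ → ℂ := fun w => ∏ i ∈ S, (zz (-g i) w ^ (n i).toNat * zz (g i) w ^ (-n i).toNat) with hQ
  have hd : Differentiable ℂ (fun w => P w - Q w) := by
    have h1 := zz_diff
    simp only [hP, hQ]
    refine Differentiable.sub ?_ ?_ <;>
    · refine Differentiable.fun_finsetProd fun i _ => ?_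
      exact ((h1 _).pow _).mul ((h1 _).pow _)
  have hg0 : 0 < g i₀ := hpos i₀
  have hl2 : 0 < Real.log 2 := Real.log_pos one_lt_two
  -- the special point
  set w₀ : ℂ := ((Real.pi / g i₀ : ℝ) : ℂ) + ((Real.log 2 / g i₀ : ℝ) : ℂ) * I with hw₀
  have him : w₀.im = Real.log 2 / g i₀ := by
    rw [hw₀, Complex.add_im, Complex.ofReal_im, zero_add, Complex.mul_I_im, Complex.ofReal_re]
  have z0 : zz (g i₀) w₀ = 0 := by
    unfold zz
    have h1 : (g i₀ : ℂ) * w₀ * I = Real.pi * I + ((-Real.log 2 : ℝ) : ℂ) := by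
      have : (g i₀ : ℂ) ≠ 0 := by exact_mod_cast hg0.ne'
      simp only [hw₀]
      rw [Complex.ofReal_div, Complex.ofReal_div, Complex.ofReal_neg]
      field_simp
      linear_combination ((Real.log 2 : ℝ) : ℂ) * Complex.I_sq
    rw [h1, Complex.exp_add, Complex.exp_pi_mul_I, ← Complex.ofReal_exp, Real.exp_neg, Real.exp_log two_pos]
    push_cast
    ring
  have zn : ∀ i, i ≠ i₀ → zz (g i) w₀ ≠ 0 := by
    intro i hne
    apply zz_ne
    rw [him]
    intro h
    apply hne
    apply hinj
    rw [mul_div_assoc', div_eq_iff hg0.ne'] at h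
    exact mul_right_cancel₀ hl2.ne' (h.trans (mul_comm _ _))
  have zm : ∀ i, zz (-g i) w₀ ≠ 0 := by
    intro i
    apply zz_ne
    rw [him]
    have := hpos i
    have h2 : 0 < g i * (Real.log 2 / g i₀) := by positivity
    intro h
    linarith
  have hne : P w₀ - Q w₀ ≠ 0 := by
    rcases lt_or_gt_of_ne hn with h | h
    · have e1 : Q w₀ = 0 := by
        simp only [hQ]
        refine prod_eq_zero hi ?_
        rw [z0, zero_pow (by omega), mul_zero]
      have e2 : P w₀ ≠ 0 := by
        simp only [hP]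
        refine prod_ne_zero_iff.2 fun i _ => mul_ne_zero ?_ (pow_ne_zero _ (zm i))
        by_cases hii : i = i₀
        · subst hii
          have : (n i).toNat = 0 := by omega
          rw [this, pow_zero]
          exact one_ne_zero
        · exact pow_ne_zero _ (zn i hii)
      rw [e1, sub_zero]
      exact e2
    · have e1 : P w₀ = 0 := by
        simp only [hP]
        refine prod_eq_zero hi ?_
        rw [z0, zero_pow (by omega), zero_mul]
      have e2 : Q w₀ ≠ 0 := by
        simp only [hQ]
        refine prod_ne_zero_iff.2 fun i _ => mul_ne_zero (pow_ne_zero _ (zm i)) ?_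
        by_cases hii : i = i₀
        · subst hii
          have : (-n i).toNat = 0 := by omega
          rw [this, pow_zero]
          exact one_ne_zero
        · exact pow_ne_zero _ (zn i hii)
      rw [e1, zero_sub]
      exact neg_ne_zero.2 e2
  refine (countable_zeros hd hne).mono ?_
  intro h hh
  simp only [Set.mem_ofPred_eq] at hh ⊢
  -- square of the phase
  have hsq : ∏ i ∈ S, (zz (g i) h / zz (-g i) h) ^ n i = 1 := by
    have h1 : ∏ i ∈ S, (zz (g i) h / zz (-g i) h) ^ n i =
        (∏ i ∈ S, (zz (g i) h / ‖zz (g i) h‖) ^ n i) ^ 2 := by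
      rw [← prod_pow]
      refine prod_congr rfl fun i _ => ?_
      rw [← zpow_natCast, ← zpow_mul, mul_comm, zpow_mul, zpow_natCast]
      congr 1
      rw [← zz_conj, div_pow]
      have h2 : ((‖zz (g i) h‖ : ℝ) : ℂ) ^ 2 = zz (g i) h * conj (zz (g i) h) := by
        rw [Complex.mul_conj, Complex.normSq_eq_norm_sq]
        push_cast
        ring
      rw [h2]
      have h3 := zz_real_ne (g i) h
      have h4 : conj (zz (g i) h) ≠ 0 := (map_ne_zero _).2 h3
      field_simp
    rw [h1, hh]
  have h5 : P h = (∏ i ∈ S, (zz (g i) h / zz (-g i) h) ^ n i) * Q h := by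
    simp only [hP, hQ]
    rw [← prod_mul_distrib]
    refine prod_congr rfl fun i _ => ?_
    have a1 := zz_real_ne (g i) h
    have a2 := zz_real_ne (-g i) h
    rw [div_zpow]
    have b1 : zz (g i) h ^ n i * zz (g i) h ^ (-n i).toNat = zz (g i) h ^ (n i).toNat := by
      rw [← zpow_natCast, ← zpow_natCast, ← zpow_add₀ a1]
      congr 1
      omega
    have b2 : zz (-g i) h ^ n i * zz (-g i) h ^ (-n i).toNat = zz (-g i) h ^ (n i).toNat := by
      rw [← zpow_natCast, ← zpow_natCast, ← zpow_add₀ a2]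
      congr 1
      omega
    have a3 : zz (-g i) h ^ n i ≠ 0 := zpow_ne_zero _ a2
    rw [← b1, ← b2]
    field_simp
  rw [h5, hsq, one_mul, sub_self]

end Pool.Agent.U349.EV
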