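import Pool.Agent.U349.EV.SetC
import Pool.Agent.U544.LI.Mult2

/-!
# Extreme values and multiplicities
-/

set_option autoImplicit false

namespace Pool.Agent.U349.EV

open Finset Filter Topology Complex MeasureTheory
open Pool.Agent.U544.LI

variable {f : ℂ → ℂ} {L : ℕ → ℝ} {δ : ℝ}

/-- `limsup W ≤ v` -/
def LimsupLe (W : ℝ → ℝ) (v : ℝ) : Prop := ∀ ε : ℝ, 0 < ε → ∀ᶠ x in atTop, W x < v + ε

/-- `limsup W ≥ v` -/
def LimsupGe (W : ℝ → ℝ) (v : ℝ) : Prop := ∀ ε : ℝ, 0 < ε → ∃ᶠ x in atTop, v - ε < W x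

lemma le_of_limsup {W : ℝ → ℝ} {V v : ℝ} (h1 : LimsupGe W V) (h2 : LimsupLe W v) : V ≤ v := by
  refine le_of_forall_pos_le_add fun ε hε => ?_
  obtain ⟨x, hx1, hx2⟩ := ((h1 (ε / 2) (half_pos hε)).and_eventually (h2 (ε / 2) (half_pos hε))).exists
  linarith

/-- the upper bound for `|d(u) + 2 d(u + x)|` -/
lemma upper_abs (h : LD f L δ) (hR : RHf f) (x : ℝ) :
    LimsupLe (fun u => |Dd L δ u + 2 * Dd L δ (u + x)|) (VV f x) := by
  intro ε hε
  have hV : VV f x = 2 * (mu f 0 : ℝ) * (∑ j, (![1, 2] : Fin 2 → ℝ) j) + ∑' g, ‖Am f ![1, 2] ![0, x] g‖ := by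
    unfold VV
    rw [tsum_congr fun g => norm_Am_two h x g, Fin.sum_univ_two]
    simp only [Matrix.cons_val_zero, Matrix.cons_val_one]
    ring
  have hmu : (0:ℝ) ≤ mu f 0 := Nat.cast_nonneg _
  have h1 := upper h hR ![1, 2] ![0, x] hε
  have h2 := upper h hR (fun j => -(![1, 2] : Fin 2 → ℝ) j) ![0, x] hε
  have h3 : ∀ g, ‖Am f (fun j => -(![1, 2] : Fin 2 → ℝ) j) ![0, x] g‖ = ‖Am f ![1, 2] ![0, x] g‖ := by
    intro g
    rw [← norm_neg]
    congr 1
    unfold Am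
    rw [← mul_neg, ← sum_neg_distrib]
    congr 1
    exact sum_congr rfl fun j _ => by push_cast; ring
  filter_upwards [h1, h2] with u hu1 hu2
  simp only [h3, neg_mul, sum_neg_distrib] at hu2
  rw [sum_two] at hu1 hu2
  rw [hV, abs_lt]
  rw [Fin.sum_univ_two] at hu1 hu2 ⊢
  simp only [Matrix.cons_val_zero, Matrix.cons_val_one] at hu1 hu2 ⊢
  constructor <;> linarith

/-- under the Riemann hypothesis only the lower bound matters -/
theorem crit_lower (h : LD f L δ) : ∃ E : Set ℝ, E.Countable ∧ ∀ x : ℝ, 0 < x → x ∉ E → RHf f →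
    (LinearIndependent ℚ (fun g : Gs f => g.1) ↔
      LimsupGe (fun u => |Dd L δ u + 2 * Dd L δ (u + x)|) (VV f x)) := by
  obtain ⟨E, hE, hc⟩ := crit_abs h
  refine ⟨E, hE, fun x hx hxE hR => ⟨fun hI => ((hc x hx hxE).1 ⟨hR, hI⟩).2, fun hl => ?_⟩⟩
  exact ((hc x hx hxE).2 ⟨upper_abs h hR x, hl⟩).2

section gen

variable {ι : Type*}

lemma linInd_fib (π : ι → Gs f) (hs : Function.Surjective π) :
    LinearIndependent ℚ (fun i => (π i).1) ↔
      Function.Injective π ∧ LinearIndependent ℚ (fun g : Gs f => g.1) := by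
  constructor
  · intro h
    have hi : Function.Injective π := fun i j hij => h.injective (by simp only [hij])
    refine ⟨hi, ?_⟩
    have := linearIndependent_equiv (R := ℚ) (Equiv.ofBijective π ⟨hi, hs⟩) (f := fun g : Gs f => g.1)
    exact this.1 h
  · rintro ⟨hi, h⟩
    exact h.comp π hi

/-- simplicity and distinctness from the extreme value of the error term -/
theorem crit_red (h : LD f L δ) (r : Gs f → ℝ) (hr0 : ∀ g, 0 ≤ r g) (hr : ∀ g, r g ≤ wt f g) {e : ℝ}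
    (he : e ≤ mu f 0) :
    (RHf f ∧ (mu f 0 : ℝ) = e ∧ (∀ g, r g = wt f g)) ↔ LimsupLe (Dd L δ) (2 * e + ∑' g, 2 * r g) := by
  have hws := (wt_summ h).mul_left 2
  have hrs : Summable fun g => 2 * r g :=
    Summable.of_nonneg_of_le (fun g => by have := hr0 g; positivity) (fun g => by have := hr g; linarith) hws
  constructor
  · rintro ⟨hR, h1, h2⟩ ε hε
    have h3 := upper_D h hR hε
    rw [h1] at h3
    simp only [h2]
    exact h3
  · intro hl
    have hR : RHf f := rh_of_le h (C := 2 * e + ∑' g, 2 * r g + 1) ((hl 1 one_pos).mono fun u hu => hu.le)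
    have h1 : LimsupGe (Dd L δ) (2 * (mu f 0 : ℝ) + ∑' g, 2 * wt f g) := fun ε hε => lower_D h hR hε
    have h2 := le_of_limsup h1 hl
    have h3 : ∑' g, 2 * r g ≤ ∑' g, 2 * wt f g := hrs.tsum_le_tsum (fun g => by have := hr g; linarith) hws
    refine ⟨hR, by linarith, ?_⟩
    by_contra hcon
    push Not at hcon
    obtain ⟨g, hg⟩ := hcon
    have h4 : 2 * r g < 2 * wt f g := by
      have := lt_of_le_of_ne (hr g) hg
      linarith
    have h5 : ∑' g, 2 * r g < ∑' g, 2 * wt f g :=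
      Summable.tsum_lt_tsum (fun g => by have := hr g; linarith) h4 hrs hws
    linarith

/-- **the criterion with multiplicities** -/
theorem crit_red_two (h : LD f L δ) : ∃ E : Set ℝ, E.Countable ∧ ∀ x : ℝ, 0 < x → x ∉ E →
    ∀ (r : Gs f → ℝ), (∀ g, 0 ≤ r g) → (∀ g, r g ≤ wt f g) → ∀ e : ℝ, e ≤ mu f 0 →
    (RHf f ∧ (mu f 0 : ℝ) = e ∧ (∀ g, r g = wt f g) ∧ LinearIndependent ℚ (fun g : Gs f => g.1) ↔
      LimsupLe (Dd L δ) (2 * e + ∑' g, 2 * r g) ∧
      LimsupGe (fun u => |Dd L δ u + 2 * Dd L δ (u + x)|) (6 * e + ∑' g, 2 * r g * ‖zz g.1 x‖)) := by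
  obtain ⟨E, hE, hc⟩ := crit_lower h
  refine ⟨E, hE, fun x hx hxE r hr0 hr e he => ?_⟩
  have hVV : (mu f 0 : ℝ) = e → (∀ g, r g = wt f g) → 6 * e + ∑' g, 2 * r g * ‖zz g.1 x‖ = VV f x := by
    intro h1 h2
    unfold VV
    rw [h1]
    simp only [h2]
  constructor
  · rintro ⟨hR, h1, h2, hI⟩
    refine ⟨(crit_red h r hr0 hr he).1 ⟨hR, h1, h2⟩, ?_⟩
    rw [hVV h1 h2]
    exact (hc x hx hxE hR).1 hI
  · rintro ⟨h1, h2⟩
    obtain ⟨hR, h3, h4⟩ := (crit_red h r hr0 hr he).2 h1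
    rw [hVV h3 h4] at h2
    exact ⟨hR, h3, h4, (hc x hx hxE hR).2 h2⟩

end gen

end Pool.Agent.U349.EV
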